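import Mathlib

/-!
# Definitions: Fatou set, wandering domains, inner connectivity
-/

open Filter Topology Metric

namespace Pool.Agent.Work.MP_571b65_an

/-- Normality (in the sense of Montel) of the family `{F n}` on the set `V`: every sequence of
members of the family has a subsequence which either converges locally uniformly on `V` to a
function `ℂ → ℂ`, or tends to `∞` uniformly on compact subsets of `V`. -/
def IsNormalOn (F : ℕ → ℂ → ℂ) (V : Set ℂ) : Prop :=
  ∀ φ : ℕ → ℕ, ∃ ψ : ℕ → ℕ, StrictMono ψ ∧
    ((∃ g : ℂ → ℂ, TendstoLocallyUniformlyOn (fun k => F (φ (ψ k))) g atTop V) ∨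
      ∀ K ⊆ V, IsCompact K → ∀ M : ℝ, ∀ᶠ k in atTop, ∀ z ∈ K, M < ‖F (φ (ψ k)) z‖)

/-- The Fatou set: the points near which the iterates form a normal family. -/
def fatouSet (f : ℂ → ℂ) : Set ℂ :=
  {z | ∃ V : Set ℂ, IsOpen V ∧ z ∈ V ∧ IsNormalOn (fun n => f^[n]) V}

/-- Fatou components: connected components of the Fatou set. -/
def IsFatouComponent (f : ℂ → ℂ) (U : Set ℂ) : Prop :=
  ∃ z ∈ fatouSet f, U = connectedComponentIn (fatouSet f) z

/-- `U` is multiply connected: its complement has a bounded component. -/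
def IsMultiplyConnected (U : Set ℂ) : Prop :=
  ∃ x ∈ Uᶜ, Bornology.IsBounded (connectedComponentIn Uᶜ x)

/-- `U` is a multiply connected wandering domain of `f`: a multiply connected component of the
Fatou set such that the components `W n` of the Fatou set containing `f^n(U)` are pairwise
distinct. -/
structure IsMCWanderingDomain (f : ℂ → ℂ) (U : Set ℂ) (W : ℕ → Set ℂ) : Prop where
  component : IsFatouComponent f U
  multiply : IsMultiplyConnected U
  orbit_component : ∀ n, IsFatouComponent f (W n)
  orbit_image : ∀ n, f^[n] '' U ⊆ W n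
  wandering : ∀ m n, m ≠ n → W m ≠ W n

/-- The set of the connected components of the complement of `D` in the Riemann sphere. -/
def sphereComplementComponents (D : Set ℂ) : Set (Set (OnePoint ℂ)) :=
  {C | ∃ x ∈ (((↑) : ℂ → OnePoint ℂ) '' D)ᶜ,
    C = connectedComponentIn (((↑) : ℂ → OnePoint ℂ) '' D)ᶜ x}

/-- Infinite inner connectivity: for every base point `z₀ ∈ U`, the complement (in the Riemann
sphere) of `W n ∩ {|z| < |f^n(z₀)|}` has infinitely many components for all large `n`. -/
def HasInfiniteInnerConnectivity (f : ℂ → ℂ) (U : Set ℂ) (W : ℕ → Set ℂ) : Prop :=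
  ∀ z₀ ∈ U, ∃ N, ∀ n ≥ N, (sphereComplementComponents (W n ∩ ball 0 ‖f^[n] z₀‖)).Infinite

/-- The one-point components of `ℂ \ U`. -/
def singletonComponents (U : Set ℂ) : Set ℂ :=
  {p | p ∈ Uᶜ ∧ connectedComponentIn Uᶜ p = {p}}

end Pool.Agent.Work.MP_571b65_an
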