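import Mathlib
import Pool.Agent.Work.MP_571b65_an.Defs

/-!
# General facts on Fatou sets and escaping points
-/

open Filter Topology Metric Set

namespace Pool.Agent.Work.MP_571b65_an

variable {f : ℂ → ℂ}

theorem dichotomy (φ : ℕ → ℕ) :
    (∃ ψ : ℕ → ℕ, StrictMono ψ ∧ ∃ c, ∀ k, φ (ψ k) = c) ∨
      ∃ ψ : ℕ → ℕ, StrictMono ψ ∧ StrictMono (φ ∘ ψ) := by
  by_cases h : Tendsto φ atTop atTop
  · right
    exact strictMono_subseq_of_tendsto_atTop h
  · left
    rw [tendsto_atTop_atTop] at h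
    push Not at h
    obtain ⟨b, hb⟩ := h
    have h1 : ∃ᶠ k in atTop, φ k < b := by
      rw [frequently_atTop]
      intro i
      obtain ⟨j, hj, hj'⟩ := hb i
      exact ⟨j, hj, hj'⟩
    have h2 : ∃ c, ∃ᶠ k in atTop, φ k = c := by
      by_contra hcon
      push Not at hcon
      have h3 : ∀ᶠ k in atTop, ∀ c ∈ Finset.range b, φ k ≠ c := by
        rw [Filter.eventually_all_finset]
        intro c _
        exact hcon c
      obtain ⟨k, hk, hk'⟩ := (h1.and_eventually h3).exists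
      exact hk' (φ k) (Finset.mem_range.mpr hk) rfl
    obtain ⟨c, hc⟩ := h2
    obtain ⟨ψ, hψ, hψ'⟩ := extraction_of_frequently_atTop hc
    exact ⟨ψ, hψ, c, hψ'⟩

theorem isOpen_fatouSet : IsOpen (fatouSet f) := by
  rw [isOpen_iff_forall_mem_open]
  rintro z ⟨V, hV, hz, hn⟩
  exact ⟨V, fun w hw => ⟨V, hV, hw, hn⟩, hV, hz⟩

/-- uniform escape on a neighbourhood -/
def EscAt (f : ℂ → ℂ) (z : ℂ) : Prop :=
  ∃ V : Set ℂ, IsOpen V ∧ z ∈ V ∧ ∀ M : ℝ, ∀ᶠ n in atTop, ∀ w ∈ V, M < ‖f^[n] w‖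

theorem isOpen_escAt : IsOpen {z | EscAt f z} := by
  rw [isOpen_iff_forall_mem_open]
  rintro z ⟨V, hV, hz, hn⟩
  exact ⟨V, fun w hw => ⟨V, hV, hw, hn⟩, hV, hz⟩

theorem EscAt.mem_fatouSet {z : ℂ} (h : EscAt f z) : z ∈ fatouSet f := by
  obtain ⟨V, hV, hz, hn⟩ := h
  refine ⟨V, hV, hz, fun φ => ?_⟩
  rcases dichotomy φ with ⟨ψ, hψ, c, hc⟩ | ⟨ψ, hψ, hψ'⟩
  · refine ⟨ψ, hψ, Or.inl ⟨f^[c], ?_⟩⟩
    simp only [hc]
    intro s hs x _
    exact ⟨V, mem_nhdsWithin_of_mem_nhds (hV.mem_nhds ‹_›), Eventually.of_forall fun n y _ =>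
      refl_mem_uniformity hs⟩
  · refine ⟨ψ, hψ, Or.inr fun K hK _ M => ?_⟩
    have h1 : Tendsto (φ ∘ ψ) atTop atTop := hψ'.tendsto_atTop
    filter_upwards [h1.eventually (hn M)] with k hk z hz
    exact hk z (hK hz)

theorem EscAt.tendsto {z : ℂ} (h : EscAt f z) : Tendsto (fun n => ‖f^[n] z‖) atTop atTop := by
  obtain ⟨V, -, hz, hn⟩ := h
  rw [Filter.tendsto_atTop]
  intro M
  filter_upwards [hn M] with n hn
  exact (hn z hz).le

/-- backward invariance of the Fatou set -/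
theorem mem_fatouSet_of_map (hf : Continuous f) {z : ℂ} (h : f z ∈ fatouSet f) :
    z ∈ fatouSet f := by
  obtain ⟨V, hV, hz, hn⟩ := h
  refine ⟨f ⁻¹' V, hV.preimage hf, hz, fun φ => ?_⟩
  rcases dichotomy φ with ⟨ψ, hψ, c, hc⟩ | ⟨ψ, hψ, hψ'⟩
  · refine ⟨ψ, hψ, Or.inl ⟨f^[c], ?_⟩⟩
    simp only [hc]
    intro s hs x _
    exact ⟨f ⁻¹' V, self_mem_nhdsWithin, Eventually.of_forall fun n y _ =>
      refl_mem_uniformity hs⟩
  · have h1 : ∀ k, φ (ψ (k + 1)) = φ (ψ (k + 1)) - 1 + 1 := by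
      intro k
      have : φ (ψ k) < φ (ψ (k + 1)) := hψ' (Nat.lt_succ_self k)
      omega
    obtain ⟨ψ', hψ1, hψ2⟩ := hn (fun k => φ (ψ (k + 1)) - 1)
    have h2 : ∀ k, f^[φ (ψ (ψ' k + 1))] = f^[φ (ψ (ψ' k + 1)) - 1] ∘ f := by
      intro k
      conv_lhs => rw [h1 (ψ' k)]
      exact Function.iterate_succ f _
    refine ⟨fun k => ψ (ψ' k + 1), fun i j hij => hψ (by simpa using hψ1 hij), ?_⟩
    simp only [h2]
    rcases hψ2 with ⟨g, hg⟩ | hg
    · left
      exact ⟨g ∘ f, hg.comp f (mapsTo_preimage f V) hf.continuousOn⟩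
    · right
      intro K hK hKc M
      have := hg (f '' K) (by rintro _ ⟨x, hx, rfl⟩; exact hK hx) (hKc.image hf) M
      filter_upwards [this] with k hk z hz
      exact hk (f z) (mem_image_of_mem f hz)

theorem EscAt.map (hf : IsOpenMap f) {z : ℂ} (h : EscAt f z) : EscAt f (f z) := by
  obtain ⟨V, hV, hz, hn⟩ := h
  refine ⟨f '' V, hf V hV, mem_image_of_mem f hz, fun M => ?_⟩
  have h1 := (tendsto_add_atTop_nat 1).eventually (hn M)
  filter_upwards [h1] with n hn w hw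
  obtain ⟨v, hv, rfl⟩ := hw
  have := hn v hv
  rwa [Function.iterate_succ_apply] at this

/-- a limit point of escaping points in the Fatou set is escaping -/
theorem EscAt.closure {z : ℂ} (hz : z ∈ fatouSet f) (h : z ∈ closure {w | EscAt f w}) :
    EscAt f z := by
  obtain ⟨V, hV, hzV, hn⟩ := hz
  obtain ⟨ε, hε, hεV⟩ := Metric.isOpen_iff.mp hV z hzV
  have hKV : closedBall z (ε / 2) ⊆ V := (closedBall_subset_ball (by linarith)).trans hεV
  obtain ⟨y, hy, hyz⟩ := Metric.mem_closure_iff.mp h (ε / 2) (by positivity)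
  have hyK : y ∈ closedBall z (ε / 2) := by rw [mem_closedBall, dist_comm]; exact hyz.le
  refine ⟨ball z (ε / 2), isOpen_ball, mem_ball_self (by positivity), ?_⟩
  by_contra hcon
  push Not at hcon
  obtain ⟨M, hM⟩ := hcon
  obtain ⟨φ, hφ, hφ'⟩ := extraction_of_frequently_atTop hM
  obtain ⟨ψ, hψ, hψ'⟩ := hn φ
  rcases hψ' with ⟨g, hg⟩ | hg
  · have h1 : Tendsto (fun k => f^[φ (ψ k)] y) atTop (𝓝 (g y)) := hg.tendsto_at (hKV hyK)
    have h2 : Tendsto (fun k => ‖f^[φ (ψ k)] y‖) atTop atTop :=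
      (EscAt.tendsto hy).comp (hφ.tendsto_atTop.comp hψ.tendsto_atTop)
    exact not_tendsto_nhds_of_tendsto_atTop h2 _ h1.norm
  · obtain ⟨k, hk⟩ := (hg (closedBall z (ε / 2)) hKV (isCompact_closedBall _ _) M).exists
    obtain ⟨w, hw, hw'⟩ := hφ' (ψ k)
    have := hk w (ball_subset_closedBall hw)
    linarith

theorem EscAt.component {z : ℂ} (h : EscAt f z) {w : ℂ}
    (hw : w ∈ connectedComponentIn (fatouSet f) z) : EscAt f w := by
  have h1 : connectedComponentIn (fatouSet f) z ⊆ {w | EscAt f w} := by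
    refine isPreconnected_connectedComponentIn.subset_of_closure_inter_subset isOpen_escAt
      ⟨z, mem_connectedComponentIn h.mem_fatouSet, h⟩ ?_
    rintro w ⟨hw1, hw2⟩
    exact EscAt.closure (connectedComponentIn_subset _ _ hw2) hw1
  exact h1 hw

end Pool.Agent.Work.MP_571b65_an
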