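import Mathlib
import Pool.Agent.Work.MP_571b65_an.Fatou

/-!
# A Harnack type inequality for the iterates
-/

open Filter Topology Metric Set

namespace Pool.Agent.Work.MP_571b65_an

/-- a holomorphic logarithm on a ball -/
theorem exists_log {h : ℂ → ℂ} {z : ℂ} {R : ℝ} (hR : 0 < R) (hd : DifferentiableOn ℂ h (ball z R))
    (h0 : ∀ w ∈ ball z R, h w ≠ 0) :
    ∃ g : ℂ → ℂ, DifferentiableOn ℂ g (ball z R) ∧ g z = Complex.log (h z) ∧
      ∀ w ∈ ball z R, Complex.exp (g w) = h w := by
  have hd' : DifferentiableOn ℂ (fun w => deriv h w / h w) (ball z R) :=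
    (hd.deriv isOpen_ball).div hd h0
  obtain ⟨g, hg0, hg⟩ := hd'.isExactOn_ball.with_val_at z (Complex.log (h z))
  have hgd : DifferentiableOn ℂ g (ball z R) := fun w hw =>
    (hg w hw).differentiableAt.differentiableWithinAt
  refine ⟨g, hgd, hg0, ?_⟩
  have hz : z ∈ ball z R := mem_ball_self hR
  have hconst : ∀ w ∈ ball z R, h w * Complex.exp (-g w) = h z * Complex.exp (-g z) := by
    intro w hw
    refine isOpen_ball.is_const_of_deriv_eq_zero (convex_ball z R).isPreconnected
      (f := fun w => h w * Complex.exp (-g w)) ?_ ?_ hw hz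
    · exact hd.mul (hgd.neg.cexp)
    · intro x hx
      have h1 : HasDerivAt h (deriv h x) x :=
        (hd.differentiableAt (isOpen_ball.mem_nhds hx)).hasDerivAt
      have h2 := (hg x hx).neg.cexp
      have h3 := (h1.mul h2).deriv
      have h4 : (fun w => h w * Complex.exp (-g w)) = (h * fun w => Complex.exp (-g w)) := rfl
      rw [h4]
      refine h3.trans ?_
      have := h0 x hx
      simp only [Pi.neg_apply, Pi.zero_apply]
      field_simp
      ring
  intro w hw
  have h1 := hconst w hw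
  rw [hg0, Complex.exp_neg, Complex.exp_neg, Complex.exp_log (h0 z hz),
    mul_inv_cancel₀ (h0 z hz)] at h1
  have h2 : Complex.exp (g w) ≠ 0 := Complex.exp_ne_zero _
  field_simp at h1
  exact h1.symm

theorem harnack {h : ℂ → ℂ} {z : ℂ} {R : ℝ} (hR : 0 < R) (hd : DifferentiableOn ℂ h (ball z R))
    (h1 : ∀ w ∈ ball z R, 1 ≤ ‖h w‖) {w : ℂ} (hw : ‖w - z‖ ≤ R / 2) :
    Real.log ‖h w‖ ≤ 12 + 3 * Real.log ‖h z‖ := by
  have hz : z ∈ ball z R := mem_ball_self hR
  have hwb : w ∈ ball z R := by rw [mem_ball_iff_norm]; linarith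
  have h0 : ∀ w ∈ ball z R, h w ≠ 0 := fun w hw => by
    rw [← norm_pos_iff]; linarith [h1 w hw]
  obtain ⟨g, hgd, hgz, hg⟩ := exists_log hR hd h0
  have hre : ∀ w ∈ ball z R, (g w).re = Real.log ‖h w‖ := by
    intro w hw
    rw [← hg w hw, Complex.norm_exp, Real.log_exp]
  have hF : DifferentiableOn ℂ (fun ζ => -g (z + ζ)) (ball 0 R) := by
    refine DifferentiableOn.neg (hgd.comp (by fun_prop) fun ζ hζ => ?_)
    rw [mem_ball_zero_iff] at hζ
    rw [mem_ball_iff_norm]
    simpa using hζ
  have hF1 : MapsTo (fun ζ => -g (z + ζ)) (ball 0 R) {x | x.re ≤ 1} := by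
    intro ζ hζ
    have hζ' : z + ζ ∈ ball z R := by
      rw [mem_ball_zero_iff] at hζ
      rw [mem_ball_iff_norm]
      simpa using hζ
    have h2 := Real.log_nonneg (h1 _ hζ')
    rw [← hre _ hζ'] at h2
    simp only [Set.mem_ofPred_eq, Complex.neg_re]
    linarith
  have hζ0 : w - z ∈ ball (0 : ℂ) R := by rw [mem_ball_zero_iff]; linarith
  have hBC := Complex.borelCaratheodory (M := 1) one_pos hF hF1 hR hζ0
  simp only [add_sub_cancel, add_zero, norm_neg] at hBC
  set t := ‖w - z‖ with ht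
  have ht0 : 0 ≤ t := norm_nonneg _
  have hpos : 0 < R - t := by linarith
  have e1 : 2 * 1 * t / (R - t) ≤ 2 := by rw [div_le_iff₀ hpos]; linarith
  have e2 : ‖g z‖ * (R + t) / (R - t) ≤ 3 * ‖g z‖ := by
    rw [div_le_iff₀ hpos]
    nlinarith [norm_nonneg (g z)]
  have e3 : ‖g z‖ ≤ Real.log ‖h z‖ + Real.pi := by
    rw [hgz]
    refine (Complex.norm_le_abs_re_add_abs_im _).trans ?_
    rw [Complex.log_re, Complex.log_im, abs_of_nonneg (Real.log_nonneg (h1 z hz))]
    gcongr
    exact Complex.abs_arg_le_pi _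
  have e4 : Real.log ‖h w‖ ≤ ‖g w‖ := by
    rw [← hre w hwb]; exact Complex.re_le_norm _
  have := Real.pi_lt_d2
  linarith

variable {f : ℂ → ℂ}

/-- comparison of the growth of two orbits -/
def Rel (f : ℂ → ℂ) (z w : ℂ) : Prop :=
  ∃ K : ℝ, 0 < K ∧ ∀ᶠ n in atTop, Real.log ‖f^[n] z‖ ≤ K * Real.log ‖f^[n] w‖

theorem rel_of_mem (hf : Differentiable ℂ f) {z w : ℂ} (hz : EscAt f z)
    (hw : w ∈ connectedComponentIn (fatouSet f) z) : Rel f z w := by
  refine isPreconnected_connectedComponentIn.induction₂' (Rel f) (fun x hx => ?_)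
    (fun x y v _ _ _ hxy hyv => ?_) (mem_connectedComponentIn hz.mem_fatouSet) hw
  · obtain ⟨V, hV, hxV, hn⟩ := hz.component hx
    obtain ⟨R, hR, hRV⟩ := Metric.isOpen_iff.mp hV x hxV
    have hmem : ball x (R / 3) ∈ 𝓝[connectedComponentIn (fatouSet f) z] x :=
      mem_nhdsWithin_of_mem_nhds (ball_mem_nhds x (by positivity))
    filter_upwards [hmem] with y hy
    rw [mem_ball_iff_norm] at hy
    have hev := hn (Real.exp 1)
    have hd : ∀ n, Differentiable ℂ (f^[n]) := fun n => hf.iterate n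
    constructor
    · refine ⟨15, by norm_num, ?_⟩
      filter_upwards [hev] with n hn
      have h1 : Real.log ‖f^[n] x‖ ≤ 12 + 3 * Real.log ‖f^[n] y‖ := by
        refine harnack (R := 2 * R / 3) (by positivity) (hd n).differentiableOn
          (fun v hv => ?_) (by rw [norm_sub_rev]; linarith)
        have hv' : v ∈ V := by
          apply hRV
          rw [mem_ball_iff_norm] at hv ⊢
          calc ‖v - x‖ = ‖(v - y) + (y - x)‖ := by congr 1; ring
            _ ≤ ‖v - y‖ + ‖y - x‖ := norm_add_le _ _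
            _ < R := by linarith
        have := hn v hv'
        have := Real.add_one_le_exp 1
        linarith
      have hyV : y ∈ V := hRV (by rw [mem_ball_iff_norm]; linarith)
      have h2 : 1 ≤ Real.log ‖f^[n] y‖ := by
        rw [Real.le_log_iff_exp_le ((Real.exp_pos 1).trans (hn y hyV))]
        exact (hn y hyV).le
      linarith
    · refine ⟨15, by norm_num, ?_⟩
      filter_upwards [hev] with n hn
      have h1 : Real.log ‖f^[n] y‖ ≤ 12 + 3 * Real.log ‖f^[n] x‖ := by
        refine harnack (R := R) (by positivity) (hd n).differentiableOn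
          (fun v hv => ?_) (by linarith)
        have := hn v (hRV hv)
        have := Real.add_one_le_exp 1
        linarith
      have h2 : 1 ≤ Real.log ‖f^[n] x‖ := by
        rw [Real.le_log_iff_exp_le ((Real.exp_pos 1).trans (hn x hxV))]
        exact (hn x hxV).le
      linarith
  · obtain ⟨K, hK, h1⟩ := hxy
    obtain ⟨L, hL, h2⟩ := hyv
    refine ⟨K * L, by positivity, ?_⟩
    filter_upwards [h1, h2] with n h1 h2
    calc Real.log ‖f^[n] x‖ ≤ K * Real.log ‖f^[n] y‖ := h1
      _ ≤ K * (L * Real.log ‖f^[n] v‖) := by gcongr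
      _ = _ := by ring

end Pool.Agent.Work.MP_571b65_an
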