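import Mathlib

/-!
# Point components from shrinking neighbourhoods
-/

open Filter Topology Metric Set

namespace Pool.Agent.Work.MP_571b65_an

theorem subset_of_disjoint_frontier {X : Type*} [TopologicalSpace X] {C O : Set X}
    (hC : IsPreconnected C) (hO : IsOpen O) (hf : Disjoint C (frontier O)) (hne : (C ∩ O).Nonempty) :
    C ⊆ O := by
  refine hC.subset_left_of_subset_union hO isClosed_closure.isOpen_compl
    (disjoint_compl_right_iff_subset.mpr subset_closure) (fun x hx => ?_) hne
  by_cases h : x ∈ O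
  · exact Or.inl h
  · right
    intro h2
    exact Set.disjoint_left.mp hf hx ⟨h2, by rwa [hO.interior_eq]⟩

theorem component_eq_singleton {X : Type*} [TopologicalSpace X] {D : Set X} {p : X} {O : ℕ → Set X}
    (hO : ∀ k, IsOpen (O k)) (hp : ∀ k, p ∈ O k) (hf : ∀ k, frontier (O k) ⊆ D)
    (hI : ∀ x, (∀ k, x ∈ O k) → x = p) (hpD : p ∈ Dᶜ) :
    connectedComponentIn Dᶜ p = {p} := by
  refine subset_antisymm (fun x hx => ?_) (by
    rw [singleton_subset_iff]; exact mem_connectedComponentIn hpD)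
  refine hI x fun k => ?_
  have h1 : connectedComponentIn Dᶜ p ⊆ O k := by
    refine subset_of_disjoint_frontier isPreconnected_connectedComponentIn (hO k) ?_
      ⟨p, mem_connectedComponentIn hpD, hp k⟩
    rw [Set.disjoint_left]
    intro y hy hy'
    exact connectedComponentIn_subset _ _ hy (hf k hy')
  exact h1 hx

theorem frontier_coe_image {O : Set ℂ} (hO : IsOpen O) (hb : Bornology.IsBounded O) :
    frontier (((↑) : ℂ → OnePoint ℂ) '' O) ⊆ ((↑) : ℂ → OnePoint ℂ) '' frontier O := by
  have h1 : IsOpen (((↑) : ℂ → OnePoint ℂ) '' O) := OnePoint.isOpenEmbedding_coe.isOpenMap O hO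
  have h2 : IsCompact (closure O) := hb.isCompact_closure
  have h3 : IsClosed (((↑) : ℂ → OnePoint ℂ) '' closure O) :=
    (h2.image OnePoint.continuous_coe).isClosed
  have h4 : closure (((↑) : ℂ → OnePoint ℂ) '' O) ⊆ ((↑) : ℂ → OnePoint ℂ) '' closure O :=
    closure_minimal (image_mono subset_closure) h3
  rintro x ⟨hx1, hx2⟩
  rw [h1.interior_eq] at hx2
  obtain ⟨y, hy, rfl⟩ := h4 hx1
  refine ⟨y, ⟨hy, ?_⟩, rfl⟩
  rw [hO.interior_eq]
  exact fun h => hx2 (mem_image_of_mem _ h)

end Pool.Agent.Work.MP_571b65_an
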