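import Mathlib

/-!
# The sequence of moduli of the zeros
-/

namespace Pool.Agent.Work.MP_571b65_an

/-- auxiliary recursion for the pair `(a n, b n)` -/
noncomputable def ab : ℕ → ℝ × ℝ
  | 0 => (1024, 1)
  | n + 1 => (((ab n).1 / 4) ^ (2 * n + 16) / (ab n).2, (ab n).2 * (ab n).1 ^ 2)

/-- the moduli of the zeros -/
noncomputable def a (n : ℕ) : ℝ := (ab n).1

/-- `b n = ∏_{k < n} (a k)^2` -/
noncomputable def b (n : ℕ) : ℝ := (ab n).2

theorem a_zero : a 0 = 1024 := rfl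
theorem b_zero : b 0 = 1 := rfl
theorem a_succ (n : ℕ) : a (n + 1) = (a n / 4) ^ (2 * n + 16) / b n := rfl
theorem b_succ (n : ℕ) : b (n + 1) = b n * a n ^ 2 := rfl

theorem invariants (n : ℕ) : 1024 ≤ a n ∧ 1 ≤ b n ∧ b n ≤ a n ∧
    64 ^ (n + 8) * a n ^ (n + 7) ≤ a (n + 1) := by
  have key : ∀ n, 1024 ≤ a n → 1 ≤ b n → b n ≤ a n → 64 ^ (n + 8) * a n ^ (n + 7) ≤ a (n + 1) := by
    intro n h1 h2 h3
    rw [a_succ, le_div_iff₀ (by linarith)]
    have h4 : 64 * a n ≤ (a n / 4) ^ 2 := by nlinarith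
    calc (64 : ℝ) ^ (n + 8) * a n ^ (n + 7) * b n ≤ 64 ^ (n + 8) * a n ^ (n + 7) * a n := by gcongr
      _ = (64 * a n) ^ (n + 8) := by rw [mul_pow]; ring
      _ ≤ ((a n / 4) ^ 2) ^ (n + 8) := by gcongr
      _ = (a n / 4) ^ (2 * n + 16) := by rw [← pow_mul]; ring_nf
  have h : 1024 ≤ a n ∧ 1 ≤ b n ∧ b n ≤ a n := by
    induction n with
    | zero => rw [a_zero, b_zero]; norm_num
    | succ n ih =>
      obtain ⟨h1, h2, h3⟩ := ih
      have h4 := key n h1 h2 h3
      have h5 : a n ^ 3 ≤ a n ^ (n + 7) := pow_le_pow_right₀ (by linarith) (by omega)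
      have h6 : (1 : ℝ) ≤ 64 ^ (n + 8) := one_le_pow₀ (by norm_num)
      have h7 : a n ^ 3 ≤ a (n + 1) := by
        calc a n ^ 3 ≤ a n ^ (n + 7) := h5
          _ = 1 * a n ^ (n + 7) := by ring
          _ ≤ 64 ^ (n + 8) * a n ^ (n + 7) := by gcongr
          _ ≤ _ := h4
      refine ⟨?_, ?_, ?_⟩
      · nlinarith [pow_pos (show (0:ℝ) < a n by linarith) 2]
      · rw [b_succ]; nlinarith [pow_pos (show (0:ℝ) < a n by linarith) 2]
      · rw [b_succ]
        calc b n * a n ^ 2 ≤ a n * a n ^ 2 := by gcongr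
          _ = a n ^ 3 := by ring
          _ ≤ _ := h7
  exact ⟨h.1, h.2.1, h.2.2, key n h.1 h.2.1 h.2.2⟩

theorem le_a (n : ℕ) : 1024 ≤ a n := (invariants n).1
theorem a_pos (n : ℕ) : 0 < a n := by linarith [le_a n]
theorem one_le_b (n : ℕ) : 1 ≤ b n := (invariants n).2.1
theorem b_pos (n : ℕ) : 0 < b n := by linarith [one_le_b n]
theorem b_le_a (n : ℕ) : b n ≤ a n := (invariants n).2.2.1

theorem a_grow (n : ℕ) : 64 * a n ≤ a (n + 1) := by
  have h := (invariants n).2.2.2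
  have h1 := le_a n
  calc 64 * a n = 64 ^ 1 * a n ^ 1 := by ring
    _ ≤ 64 ^ (n + 8) * a n ^ (n + 7) := by
        gcongr
        · norm_num
        · omega
        · linarith
        · omega
    _ ≤ _ := h

theorem a_grow_pow (n : ℕ) : a n ^ (n + 1) ≤ a (n + 1) := by
  have h := (invariants n).2.2.2
  have h1 := le_a n
  have h6 : (1 : ℝ) ≤ 64 ^ (n + 8) := one_le_pow₀ (by norm_num)
  calc a n ^ (n + 1) ≤ a n ^ (n + 7) := pow_le_pow_right₀ (by linarith) (by omega)
    _ = 1 * a n ^ (n + 7) := by ring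
    _ ≤ 64 ^ (n + 8) * a n ^ (n + 7) := by gcongr
    _ ≤ _ := h

theorem a_upper (n : ℕ) : a (n + 1) ≤ a n ^ (2 * n + 16) := by
  rw [a_succ]
  have h1 := le_a n
  have h2 := one_le_b n
  calc (a n / 4) ^ (2 * n + 16) / b n ≤ (a n / 4) ^ (2 * n + 16) := div_le_self (by positivity) h2
    _ ≤ _ := by gcongr; linarith

theorem a_grow_add (n k : ℕ) : 64 ^ k * a n ≤ a (n + k) := by
  induction k with
  | zero => simp
  | succ k ih =>
    calc (64 : ℝ) ^ (k + 1) * a n = 64 * (64 ^ k * a n) := by ring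
      _ ≤ 64 * a (n + k) := by gcongr
      _ ≤ _ := a_grow _

theorem a_mono : StrictMono a := strictMono_nat_of_lt_succ fun n => by
  linarith [a_grow n, a_pos n]

theorem b_eq_prod (n : ℕ) : b n = ∏ k ∈ Finset.range n, a k ^ 2 := by
  induction n with
  | zero => simp [b_zero]
  | succ n ih => rw [b_succ, Finset.prod_range_succ, ih]

/-- the sum of the small zeros relative to `a n` -/
theorem sum_low (n : ℕ) : ∑ k ∈ Finset.range n, a k ^ 2 ≤ a n ^ 2 / 4095 := by
  induction n with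
  | zero => simp; positivity
  | succ n ih =>
    rw [Finset.sum_range_succ]
    have h1 : (64 * a n) ^ 2 ≤ a (n + 1) ^ 2 := by
      have := a_pos n
      gcongr
      exact a_grow n
    nlinarith

end Pool.Agent.Work.MP_571b65_an
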