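import Mathlib
import Pool.Agent.Work.MP_571b65_an.Seq

/-!
# The infinite product
-/

open Filter Topology Metric

namespace Pool.Agent.Work.MP_571b65_an

/-- `-(z / a_k)^2` -/
noncomputable def u (k : ℕ) (z : ℂ) : ℂ := -(z ^ 2 / (a k : ℂ) ^ 2)

/-- tail of the product -/
noncomputable def T (n : ℕ) (z : ℂ) : ℂ := ∏' k, (1 + u (k + n) z)

/-- head of the product -/
noncomputable def P (n : ℕ) (z : ℂ) : ℂ := z ^ 16 * ∏ k ∈ Finset.range n, (1 + u k z)

/-- the entire function `z ^ 16 * ∏_k (1 - z^2 / a_k^2)` -/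
noncomputable def f (z : ℂ) : ℂ := z ^ 16 * ∏' k, (1 + u k z)

theorem norm_u (k : ℕ) (z : ℂ) : ‖u k z‖ = ‖z‖ ^ 2 / a k ^ 2 := by
  rw [u, norm_neg, norm_div, norm_pow, norm_pow, Complex.norm_real, Real.norm_eq_abs,
    abs_of_pos (a_pos k)]

theorem norm_u_le (n k : ℕ) (z : ℂ) : ‖u (k + n) z‖ ≤ ‖z‖ ^ 2 / a n ^ 2 * (1 / 4) ^ k := by
  rw [norm_u]
  have h1 := a_grow_add n k
  have h2 := a_pos n
  have h3 : a n ^ 2 * 4 ^ k ≤ a (k + n) ^ 2 := by
    rw [add_comm k n]
    calc a n ^ 2 * 4 ^ k ≤ a n ^ 2 * 4096 ^ k := by gcongr; norm_num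
      _ = (64 ^ k * a n) ^ 2 := by rw [mul_pow, ← pow_mul, mul_comm k 2, pow_mul]; norm_num; ring
      _ ≤ _ := by gcongr
  calc ‖z‖ ^ 2 / a (k + n) ^ 2 ≤ ‖z‖ ^ 2 / (a n ^ 2 * 4 ^ k) := by gcongr
    _ = _ := by rw [one_div, inv_pow]; field_simp

theorem summable_geom : Summable fun k : ℕ => (1 / 4 : ℝ) ^ k :=
  summable_geometric_of_lt_one (by norm_num) (by norm_num)

theorem summable_u (n : ℕ) (z : ℂ) : Summable fun k => ‖u (k + n) z‖ :=
  Summable.of_nonneg_of_le (fun _ => norm_nonneg _) (norm_u_le n · z)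
    (summable_geom.mul_left _)

theorem tsum_u_le (n : ℕ) (z : ℂ) : ∑' k, ‖u (k + n) z‖ ≤ ‖z‖ ^ 2 / a n ^ 2 * (4 / 3) := by
  calc ∑' k, ‖u (k + n) z‖ ≤ ∑' k : ℕ, ‖z‖ ^ 2 / a n ^ 2 * (1 / 4) ^ k :=
        (summable_u n z).tsum_le_tsum (norm_u_le n · z) (summable_geom.mul_left _)
    _ = _ := by
        rw [tsum_mul_left, tsum_geometric_of_lt_one (by norm_num) (by norm_num)]
        norm_num

theorem multipliable_u (n : ℕ) (z : ℂ) : Multipliable fun k => 1 + u (k + n) z :=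
  multipliable_one_add_of_summable (summable_u n z)

theorem norm_T_sub_one_le (n : ℕ) (z : ℂ) :
    ‖T n z - 1‖ ≤ Real.exp (‖z‖ ^ 2 / a n ^ 2 * (4 / 3)) - 1 := by
  have h1 : Tendsto (fun s : Finset ℕ => ‖∏ k ∈ s, (1 + u (k + n) z) - 1‖) atTop
      (𝓝 ‖T n z - 1‖) := ((multipliable_u n z).hasProd.sub_const 1).norm
  refine le_of_tendsto h1 (Eventually.of_forall fun s => ?_)
  refine (Finset.norm_prod_one_add_sub_one_le s _).trans ?_
  gcongr
  exact ((summable_u n z).sum_le_tsum s fun _ _ => norm_nonneg _).trans (tsum_u_le n z)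

theorem f_eq (n : ℕ) (z : ℂ) : f z = P n z * T n z := by
  rw [f, P, T, mul_assoc, (multipliable_u n z).prod_mul_tprod_nat_mul' (f := fun k => 1 + u k z)]

theorem P_succ (n : ℕ) (z : ℂ) : P (n + 1) z = P n z * (1 + u n z) := by
  rw [P, P, Finset.prod_range_succ, mul_assoc]

theorem f_eq' (n : ℕ) (z : ℂ) : f z = P n z * (1 + u n z) * T (n + 1) z := by
  rw [f_eq (n + 1), P_succ]

theorem f_a (n : ℕ) : f (a n) = 0 := by
  have : (a n : ℂ) ≠ 0 := by exact_mod_cast (a_pos n).ne'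
  rw [f_eq' n, u, div_self (pow_ne_zero 2 this)]
  ring

theorem f_neg_a (n : ℕ) : f (-(a n : ℂ)) = 0 := by
  have : (a n : ℂ) ≠ 0 := by exact_mod_cast (a_pos n).ne'
  rw [f_eq' n, u, neg_sq, div_self (pow_ne_zero 2 this)]
  ring

theorem f_zero : f 0 = 0 := by simp [f]

theorem differentiable_T (n : ℕ) : Differentiable ℂ (T n) := by
  intro z
  have hopen : IsOpen (ball (0 : ℂ) (‖z‖ + 1)) := isOpen_ball
  have h := Summable.hasProdLocallyUniformlyOn_nat_one_add (f := fun k z => u (k + n) z)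
    (K := ball (0 : ℂ) (‖z‖ + 1)) hopen
    (u := fun k : ℕ => (‖z‖ + 1) ^ 2 / a n ^ 2 * (1 / 4) ^ k) (summable_geom.mul_left _)
    (Eventually.of_forall fun k w hw => by
      refine (norm_u_le n k w).trans ?_
      rw [mem_ball_zero_iff] at hw
      gcongr)
    (fun k => by unfold u; fun_prop)
  have h2 : DifferentiableOn ℂ (T n) (ball (0 : ℂ) (‖z‖ + 1)) :=
    h.differentiableOn (.of_forall fun _ => by
      simpa [Finset.prod_fn] using
        DifferentiableOn.finsetProd (fun _ _ => by unfold u; fun_prop)) hopen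
  exact h2.differentiableAt (hopen.mem_nhds (by simp))

theorem differentiable_P (n : ℕ) : Differentiable ℂ (P n) := by
  unfold P u
  fun_prop

theorem differentiable_f : Differentiable ℂ f := by
  have : f = fun z => P 0 z * T 0 z := funext (f_eq 0)
  rw [this]
  exact (differentiable_P 0).mul (differentiable_T 0)

/-- `f` is not a polynomial -/
theorem f_transcendental (Q : Polynomial ℂ) : ∃ z, f z ≠ Q.eval z := by
  by_contra hcon
  push Not at hcon
  have hQ : Q = 0 := by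
    by_contra hQ
    have hfin := Q.roots.toFinset.finite_toSet
    have hinf : (Set.range fun n : ℕ => (a n : ℂ)).Infinite := by
      refine Set.infinite_range_of_injective fun m n h => ?_
      exact a_mono.injective (by exact_mod_cast h)
    refine hinf (hfin.subset ?_)
    rintro _ ⟨n, rfl⟩
    simp only [Finset.mem_coe, Multiset.mem_toFinset, Polynomial.mem_roots hQ, Polynomial.IsRoot]
    rw [← hcon, f_a]
  have h1 : f 1 = 0 := by rw [hcon, hQ, Polynomial.eval_zero]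
  rw [f, one_pow, one_mul] at h1
  have h2 : T 0 1 = 0 := h1
  have h3 := norm_T_sub_one_le 0 1
  rw [h2, a_zero, norm_one, zero_sub, norm_neg, norm_one] at h3
  have h4 : Real.exp ((1 : ℝ) ^ 2 / 1024 ^ 2 * (4 / 3)) < 2 := by
    calc Real.exp ((1 : ℝ) ^ 2 / 1024 ^ 2 * (4 / 3)) ≤ Real.exp (1 / 2) := by
          gcongr; norm_num
      _ < 2 := by
        have := Real.exp_one_lt_d9
        have h5 : Real.exp (1 / 2) ^ 2 = Real.exp 1 := by rw [← Real.exp_nat_mul]; norm_num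
        nlinarith [Real.exp_pos (1 / 2)]
  linarith

end Pool.Agent.Work.MP_571b65_an
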