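import Mathlib
import Pool.Agent.Work.MP_571b65_an.Prod

/-!
# Estimates for the product
-/

open Filter Topology Metric

namespace Pool.Agent.Work.MP_571b65_an

theorem one_sub_sum_le_prod {m : ℕ} {x : ℕ → ℝ} (h0 : ∀ k < m, 0 ≤ x k) (h1 : ∀ k < m, x k ≤ 1) :
    1 - ∑ k ∈ Finset.range m, x k ≤ ∏ k ∈ Finset.range m, (1 - x k) ∧
      ∏ k ∈ Finset.range m, (1 - x k) ≤ 1 ∧ 0 ≤ ∏ k ∈ Finset.range m, (1 - x k) := by
  induction m with
  | zero => simp
  | succ m ih =>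
    obtain ⟨i1, i2, i3⟩ := ih (fun k hk => h0 k (by omega)) (fun k hk => h1 k (by omega))
    rw [Finset.sum_range_succ, Finset.prod_range_succ]
    have j0 := h0 m (by omega)
    have j1 := h1 m (by omega)
    refine ⟨?_, ?_, ?_⟩
    · nlinarith
    · nlinarith
    · exact mul_nonneg i3 (by linarith)

theorem prod_norm_ratio (m : ℕ) (r : ℝ) :
    r ^ 16 * ∏ k ∈ Finset.range m, (r ^ 2 / a k ^ 2) = r ^ (2 * m + 16) / b m := by
  rw [b_eq_prod, Finset.prod_div_distrib, Finset.prod_const, Finset.card_range, ← pow_mul]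
  rw [← mul_div_assoc, ← pow_add]
  ring_nf

theorem P_lower (m : ℕ) (z : ℂ) (hz : a m ≤ 8 * ‖z‖) :
    1 / 2 * (‖z‖ ^ (2 * m + 16) / b m) ≤ ‖P m z‖ := by
  have hz0 : 0 < ‖z‖ := by linarith [a_pos m]
  have hx : ∀ k < m, a k ^ 2 / ‖z‖ ^ 2 ≤ 1 := by
    intro k hk
    rw [div_le_one (by positivity)]
    have h1 : a (k + 1) ≤ a m := a_mono.monotone hk
    have h2 := a_grow k
    have h3 := a_pos k
    gcongr
    linarith
  obtain ⟨h1, -, h3⟩ := one_sub_sum_le_prod (m := m) (x := fun k => a k ^ 2 / ‖z‖ ^ 2)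
    (fun k _ => by positivity) hx
  have h4 : ∑ k ∈ Finset.range m, a k ^ 2 / ‖z‖ ^ 2 ≤ 1 / 2 := by
    rw [← Finset.sum_div, div_le_iff₀ (by positivity)]
    have := sum_low m
    have h5 : a m ^ 2 ≤ (8 * ‖z‖) ^ 2 := by
      have := a_pos m
      gcongr
    nlinarith
  have h5 : ∏ k ∈ Finset.range m, (‖z‖ ^ 2 / a k ^ 2 * (1 - a k ^ 2 / ‖z‖ ^ 2)) ≤
      ∏ k ∈ Finset.range m, ‖1 + u k z‖ := by
    refine Finset.prod_le_prod (fun k hk => ?_) fun k hk => ?_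
    · have := hx k (Finset.mem_range.mp hk)
      exact mul_nonneg (by positivity) (by linarith)
    · have h6 : ‖u k z‖ - ‖(1 : ℂ)‖ ≤ ‖1 + u k z‖ := by
        have := norm_sub_norm_le (u k z) (-1)
        rw [norm_neg, sub_neg_eq_add, add_comm (u k z)] at this
        exact this
      rw [norm_u, norm_one] at h6
      refine le_trans (le_of_eq ?_) h6
      have := a_pos k
      field_simp
  rw [P, norm_mul, norm_pow, norm_prod]
  calc 1 / 2 * (‖z‖ ^ (2 * m + 16) / b m)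
      ≤ (∏ k ∈ Finset.range m, (1 - a k ^ 2 / ‖z‖ ^ 2)) * (‖z‖ ^ (2 * m + 16) / b m) := by
        have := b_pos m
        gcongr
        linarith
    _ = ‖z‖ ^ 16 * ∏ k ∈ Finset.range m, (‖z‖ ^ 2 / a k ^ 2 * (1 - a k ^ 2 / ‖z‖ ^ 2)) := by
        rw [← prod_norm_ratio, Finset.prod_mul_distrib]
        ring
    _ ≤ _ := by gcongr

theorem P_upper (m : ℕ) (r : ℝ) (hr : a m ≤ 8 * r) (z : ℂ) (hz : ‖z‖ ≤ r) :
    ‖P m z‖ ≤ 2 * (r ^ (2 * m + 16) / b m) := by
  have hr0 : 0 < r := by linarith [a_pos m]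
  have h4 : ∑ k ∈ Finset.range m, a k ^ 2 / r ^ 2 ≤ 1 / 2 := by
    rw [← Finset.sum_div, div_le_iff₀ (by positivity)]
    have := sum_low m
    have h5 : a m ^ 2 ≤ (8 * r) ^ 2 := by
      have := a_pos m
      gcongr
    nlinarith
  have h5 : ∏ k ∈ Finset.range m, ‖1 + u k z‖ ≤
      ∏ k ∈ Finset.range m, (r ^ 2 / a k ^ 2 * Real.exp (a k ^ 2 / r ^ 2)) := by
    refine Finset.prod_le_prod (fun k hk => norm_nonneg _) fun k hk => ?_
    have h6 : ‖1 + u k z‖ ≤ 1 + ‖z‖ ^ 2 / a k ^ 2 := by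
      refine (norm_add_le _ _).trans ?_
      rw [norm_u, norm_one]
    have h7 := Real.add_one_le_exp (a k ^ 2 / r ^ 2)
    have h8 := a_pos k
    calc ‖1 + u k z‖ ≤ 1 + ‖z‖ ^ 2 / a k ^ 2 := h6
      _ ≤ 1 + r ^ 2 / a k ^ 2 := by gcongr
      _ = r ^ 2 / a k ^ 2 * (a k ^ 2 / r ^ 2 + 1) := by field_simp
      _ ≤ _ := by gcongr
  have h6 : Real.exp (1 / 2) ≤ 2 := by
    have := Real.exp_one_lt_d9
    have h5 : Real.exp (1 / 2) ^ 2 = Real.exp 1 := by rw [← Real.exp_nat_mul]; norm_num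
    nlinarith [Real.exp_pos (1 / 2)]
  rw [P, norm_mul, norm_pow, norm_prod]
  calc ‖z‖ ^ 16 * ∏ k ∈ Finset.range m, ‖1 + u k z‖
      ≤ r ^ 16 * ∏ k ∈ Finset.range m, (r ^ 2 / a k ^ 2 * Real.exp (a k ^ 2 / r ^ 2)) := by
        gcongr
    _ = (r ^ (2 * m + 16) / b m) * Real.exp (∑ k ∈ Finset.range m, a k ^ 2 / r ^ 2) := by
        rw [← prod_norm_ratio, Finset.prod_mul_distrib, Real.exp_sum]
        ring
    _ ≤ (r ^ (2 * m + 16) / b m) * Real.exp (1 / 2) := by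
        have := b_pos m
        gcongr
    _ ≤ (r ^ (2 * m + 16) / b m) * 2 := by
        have := b_pos m
        gcongr
    _ = _ := by ring

theorem T_bound (m : ℕ) (z : ℂ) (hz : ‖z‖ ≤ a m / 8) : ‖T m z - 1‖ ≤ 1 / 2 := by
  refine (norm_T_sub_one_le m z).trans ?_
  have h1 : ‖z‖ ^ 2 / a m ^ 2 * (4 / 3) ≤ 1 / 4 := by
    have h2 := a_pos m
    have h3 : ‖z‖ ^ 2 ≤ (a m / 8) ^ 2 := by gcongr
    have h4 : ‖z‖ ^ 2 / a m ^ 2 ≤ 1 / 64 := by
      rw [div_le_iff₀ (by positivity)]; nlinarith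
    linarith
  have h2 : Real.exp (‖z‖ ^ 2 / a m ^ 2 * (4 / 3)) ≤ Real.exp (1 / 4) := by gcongr
  have h3 : Real.exp (1 / 4) ≤ 3 / 2 := by
    have := Real.exp_one_lt_d9
    have h5 : Real.exp (1 / 4) ^ 4 = Real.exp 1 := by rw [← Real.exp_nat_mul]; norm_num
    by_contra hcon
    push Not at hcon
    have h6 : (3 / 2 : ℝ) ^ 4 ≤ Real.exp (1 / 4) ^ 4 := by gcongr
    rw [h5] at h6
    norm_num at h6
    linarith
  linarith

theorem T_lower (m : ℕ) (z : ℂ) (hz : ‖z‖ ≤ a m / 8) : 1 / 2 ≤ ‖T m z‖ := by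
  have h1 := T_bound m z hz
  have h2 := norm_sub_norm_le (1 : ℂ) (T m z)
  rw [norm_one, norm_sub_rev] at h2
  linarith

theorem T_upper (m : ℕ) (z : ℂ) (hz : ‖z‖ ≤ a m / 8) : ‖T m z‖ ≤ 2 := by
  have h1 := T_bound m z hz
  have h2 := norm_sub_norm_le (T m z) (1 : ℂ)
  rw [norm_one] at h2
  linarith

theorem a_succ' (n : ℕ) (x : ℝ) : (x * a n) ^ (2 * n + 16) / b n = (4 * x) ^ (2 * n + 16) * a (n + 1) := by
  rw [a_succ, show x * a n = 4 * x * (a n / 4) by ring, mul_pow, mul_div_assoc]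

/-- the upper estimate -/
theorem est_upper (n : ℕ) (z : ℂ) (hz : ‖z‖ ≤ a (n + 1) / 8) : ‖f z‖ < a (n + 2) / 8 := by
  rw [f_eq (n + 1), norm_mul]
  have h1 := P_upper (n + 1) (a (n + 1) / 8) (by linarith [a_pos (n+1)]) z hz
  have h2 := T_upper (n + 1) z hz
  have h3 : (a (n + 1) / 8) ^ (2 * (n + 1) + 16) / b (n + 1) =
      (1 / 2) ^ (2 * (n + 1) + 16) * a (n + 2) := by
    have := a_succ' (n + 1) (1 / 8)
    rw [show 1 / 8 * a (n + 1) = a (n + 1) / 8 by ring] at this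
    rw [this]; norm_num
  rw [h3] at h1
  have h4 : (1 / 2 : ℝ) ^ (2 * (n + 1) + 16) ≤ (1 / 2) ^ 16 :=
    pow_le_pow_of_le_one (by norm_num) (by norm_num) (by omega)
  have h5 := a_pos (n + 2)
  calc ‖P (n + 1) z‖ * ‖T (n + 1) z‖ ≤ 2 * ((1 / 2) ^ (2 * (n + 1) + 16) * a (n + 2)) * 2 := by
        gcongr
    _ ≤ 2 * ((1 / 2) ^ 16 * a (n + 2)) * 2 := by gcongr
    _ < _ := by norm_num; linarith

/-- radius of the discs around the zeros -/
noncomputable def r (n : ℕ) : ℝ := a n / (1000 * (2 * n + 16))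

theorem r_pos (n : ℕ) : 0 < r n := by
  have := a_pos n
  unfold r; positivity

theorem r_le (n : ℕ) : r n ≤ a n / 16000 := by
  have := a_pos n
  unfold r
  gcongr
  have : (0 : ℝ) ≤ n := Nat.cast_nonneg n
  linarith

theorem three_pow (n : ℕ) : 8 * (1000 * (2 * (n : ℝ) + 16)) ≤ 3 ^ (2 * n + 16) := by
  induction n with
  | zero => norm_num
  | succ n ih =>
    rw [show 2 * (n + 1) + 16 = (2 * n + 16) + 2 by ring, pow_add]
    push_cast
    have : (0 : ℝ) ≤ n := Nat.cast_nonneg n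
    nlinarith

/-- basic lower bound for `f` -/
theorem f_lower (n : ℕ) (z : ℂ) (h1 : a n ≤ 8 * ‖z‖) (h2 : ‖z‖ ≤ a (n + 1) / 8) :
    1 / 4 * (4 * (‖z‖ / a n)) ^ (2 * n + 16) * a (n + 1) * ‖1 + u n z‖ ≤ ‖f z‖ := by
  rw [f_eq' n, norm_mul, norm_mul]
  have h3 := P_lower n z h1
  have h4 := T_lower (n + 1) z h2
  have h5 := a_succ' n (‖z‖ / a n)
  rw [div_mul_cancel₀ _ (a_pos n).ne'] at h5
  rw [h5] at h3
  calc 1 / 4 * (4 * (‖z‖ / a n)) ^ (2 * n + 16) * a (n + 1) * ‖1 + u n z‖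
      = (1 / 2 * ((4 * (‖z‖ / a n)) ^ (2 * n + 16) * a (n + 1))) * ‖1 + u n z‖ * (1 / 2) := by ring
    _ ≤ _ := by gcongr

theorem one_add_u (n : ℕ) (z : ℂ) : ‖1 + u n z‖ = ‖z - a n‖ * ‖z + a n‖ / a n ^ 2 := by
  have h0 : (a n : ℂ) ≠ 0 := by exact_mod_cast (a_pos n).ne'
  have h1 : 1 + u n z = -((z - a n) * (z + a n) / (a n : ℂ) ^ 2) := by
    rw [u]; field_simp; ring
  rw [h1, norm_neg, norm_div, norm_mul, norm_pow, Complex.norm_real, Real.norm_eq_abs,
    abs_of_pos (a_pos n)]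

/-- the closed set mapped into the absorbing annulus -/
def E (n : ℕ) : Set ℂ :=
  {z | a n / 2 ≤ ‖z‖ ∧ ‖z‖ ≤ a (n + 1) / 8 ∧ r n ≤ ‖z - a n‖ ∧ r n ≤ ‖z + a n‖}

/-- the absorbing annulus -/
def B (n : ℕ) : Set ℂ := {z | 2 * a n ≤ ‖z‖ ∧ ‖z‖ ≤ a (n + 1) / 8}

theorem est_lower (n : ℕ) (z : ℂ) (hz : z ∈ E n) : 2 * a (n + 1) ≤ ‖f z‖ := by
  obtain ⟨h1, h2, h3, h4⟩ := hz
  have ha := a_pos n
  have ha' := a_pos (n + 1)
  have hr := r_pos n
  have h5 := f_lower n z (by linarith) h2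
  refine le_trans ?_ h5
  have key : 8 ≤ (4 * (‖z‖ / a n)) ^ (2 * n + 16) * ‖1 + u n z‖ := by
    by_cases hc : ‖z‖ ≤ 3 / 4 * a n
    · have h6 : 7 / 16 ≤ ‖1 + u n z‖ := by
        have h7 := norm_sub_norm_le (1 : ℂ) (-(u n z))
        rw [norm_neg, sub_neg_eq_add, norm_one, norm_u] at h7
        have h8 : ‖z‖ ^ 2 / a n ^ 2 ≤ 9 / 16 := by
          rw [div_le_iff₀ (by positivity)]
          nlinarith [norm_nonneg z]
        linarith
      have h9 : (2 : ℝ) ≤ 4 * (‖z‖ / a n) := by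
        have : 1 / 2 ≤ ‖z‖ / a n := by rw [le_div_iff₀ ha]; linarith
        linarith
      have h10 : (2 : ℝ) ^ 16 ≤ (4 * (‖z‖ / a n)) ^ (2 * n + 16) := by
        calc (2 : ℝ) ^ 16 ≤ 2 ^ (2 * n + 16) := pow_le_pow_right₀ (by norm_num) (by omega)
          _ ≤ _ := by gcongr
      nlinarith [norm_nonneg (1 + u n z)]
    · push Not at hc
      have h9 : (3 : ℝ) ≤ 4 * (‖z‖ / a n) := by
        have : 3 / 4 ≤ ‖z‖ / a n := by rw [le_div_iff₀ ha]; linarith
        linarith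
      have h10 : (3 : ℝ) ^ (2 * n + 16) ≤ (4 * (‖z‖ / a n)) ^ (2 * n + 16) := by gcongr
      have h11 : 1 / (1000 * (2 * (n : ℝ) + 16)) ≤ ‖1 + u n z‖ := by
        rw [one_add_u, le_div_iff₀ (by positivity)]
        have h12 : 2 * a n ≤ ‖z - a n‖ + ‖z + a n‖ := by
          have h13 : ‖(2 * a n : ℂ)‖ ≤ ‖z - a n‖ + ‖z + a n‖ := by
            rw [show (2 * a n : ℂ) = (z + a n) - (z - a n) by ring]
            refine (norm_sub_le _ _).trans ?_
            linarith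
          rw [norm_mul, Complex.norm_real, Real.norm_eq_abs, abs_of_pos ha] at h13
          simpa using h13
        have h14 : r n * a n ≤ ‖z - a n‖ * ‖z + a n‖ := by
          rcases le_total (a n) ‖z - a n‖ with h | h
          · nlinarith
          · have : a n ≤ ‖z + a n‖ := by linarith
            nlinarith
        refine le_trans (le_of_eq ?_) h14
        unfold r
        ring
      have h12 := three_pow n
      have h13 : (0:ℝ) < 1000 * (2 * (n : ℝ) + 16) := by positivity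
      calc (8 : ℝ) = 8 * (1000 * (2 * (n : ℝ) + 16)) * (1 / (1000 * (2 * (n : ℝ) + 16))) := by
            field_simp
        _ ≤ 3 ^ (2 * n + 16) * ‖1 + u n z‖ := by gcongr
        _ ≤ _ := by gcongr
  nlinarith

/-- growth in the absorbing annulus -/
theorem growth (n : ℕ) (z : ℂ) (hz : z ∈ B n) :
    (‖z‖ / a n) ^ (2 * n + 18) * a (n + 1) ≤ ‖f z‖ := by
  obtain ⟨h1, h2⟩ := hz
  have ha := a_pos n
  have ha' := a_pos (n + 1)
  have h5 := f_lower n z (by linarith) h2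
  refine le_trans ?_ h5
  have hv : 2 ≤ ‖z‖ / a n := by rw [le_div_iff₀ ha]; linarith
  set v := ‖z‖ / a n with hvdef
  have h6 : 3 / 4 * v ^ 2 ≤ ‖1 + u n z‖ := by
    have h7 : ‖u n z‖ - ‖(1 : ℂ)‖ ≤ ‖1 + u n z‖ := by
      have := norm_sub_norm_le (u n z) (-1)
      rw [norm_neg, sub_neg_eq_add, add_comm (u n z)] at this
      exact this
    rw [norm_u, norm_one, ← div_pow, ← hvdef] at h7
    nlinarith
  have h7 : (16 : ℝ) ≤ 4 ^ (2 * n + 16) := by
    calc (16 : ℝ) = 4 ^ 2 := by norm_num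
      _ ≤ _ := pow_le_pow_right₀ (by norm_num) (by omega)
  calc v ^ (2 * n + 18) * a (n + 1) = v ^ 2 * v ^ (2 * n + 16) * a (n + 1) := by
        rw [← pow_add]; ring_nf
    _ ≤ (1 / 4 * 16 * (3 / 4)) * (v ^ 2 * v ^ (2 * n + 16) * a (n + 1)) := by
        have : 0 ≤ v ^ 2 * v ^ (2 * n + 16) * a (n + 1) := by positivity
        linarith
    _ ≤ (1 / 4 * 4 ^ (2 * n + 16) * (3 / 4)) * (v ^ 2 * v ^ (2 * n + 16) * a (n + 1)) := by
        gcongr
    _ = 1 / 4 * (4 * v) ^ (2 * n + 16) * a (n + 1) * (3 / 4 * v ^ 2) := by rw [mul_pow]; ring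
    _ ≤ _ := by gcongr

theorem growth' (n : ℕ) (z : ℂ) (hz : z ∈ B n) : ‖z‖ ^ (n + 1) ≤ ‖f z‖ := by
  have h := growth n z hz
  have ha := a_pos n
  have hv : 1 ≤ ‖z‖ / a n := by rw [le_div_iff₀ ha]; linarith [hz.1]
  calc ‖z‖ ^ (n + 1) = (‖z‖ / a n) ^ (n + 1) * a n ^ (n + 1) := by
        rw [← mul_pow, div_mul_cancel₀ _ ha.ne']
    _ ≤ (‖z‖ / a n) ^ (2 * n + 18) * a (n + 1) := by
        have h2 : (‖z‖ / a n) ^ (n + 1) ≤ (‖z‖ / a n) ^ (2 * n + 18) :=
          pow_le_pow_right₀ hv (by omega)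
        have h3 := a_grow_pow n
        gcongr
    _ ≤ _ := h

/-! ### expansion near the zeros -/

/-- `f = (1 - z / a n) * G n z` -/
noncomputable def G (n : ℕ) (z : ℂ) : ℂ := P n z * (1 + z / a n) * T (n + 1) z

theorem f_eq_G (n : ℕ) (z : ℂ) : f z = (1 - z / a n) * G n z := by
  rw [f_eq' n, G]
  have h0 : (a n : ℂ) ≠ 0 := by exact_mod_cast (a_pos n).ne'
  have : 1 + u n z = (1 - z / a n) * (1 + z / a n) := by rw [u]; field_simp; ring
  rw [this]; ring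

theorem differentiable_G (n : ℕ) : Differentiable ℂ (G n) := by
  unfold G
  exact ((differentiable_P n).mul (by fun_prop)).mul (differentiable_T (n + 1))

/-- the size of `G` -/
noncomputable def S (n : ℕ) : ℝ := a n ^ (2 * n + 16) / b n

theorem S_pos (n : ℕ) : 0 < S n := by
  have := a_pos n
  have := b_pos n
  unfold S; positivity

theorem S_eq (n : ℕ) : S n = 4 ^ (2 * n + 16) * a (n + 1) := by
  have := a_succ' n 1
  rw [one_mul, mul_one] at this
  rw [S, this]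

/-- radius for the Cauchy estimate -/
noncomputable def R (n : ℕ) : ℝ := a n / (2 * n + 16)

theorem R_eq (n : ℕ) : R n = 1000 * r n := by
  unfold R r
  field_simp

theorem G_upper (n : ℕ) (z : ℂ) (hz : ‖z - a n‖ ≤ R n) : ‖G n z‖ ≤ 36 * S n := by
  have ha := a_pos n
  have hR : R n ≤ a n / 16 := by
    unfold R
    gcongr
    have : (0 : ℝ) ≤ n := Nat.cast_nonneg n
    linarith
  have h1 : ‖z‖ ≤ (1 + 1 / (2 * (n : ℝ) + 16)) * a n := by
    have h2 : ‖z‖ ≤ ‖z - a n‖ + ‖(a n : ℂ)‖ := by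
      simpa using norm_add_le (z - a n) (a n : ℂ)
    rw [Complex.norm_real, Real.norm_eq_abs, abs_of_pos ha] at h2
    have h3 : (1 + 1 / (2 * (n : ℝ) + 16)) * a n = R n + a n := by unfold R; ring
    linarith
  have h2 : (1 + 1 / (2 * (n : ℝ) + 16)) * a n ≤ 2 * a n := by
    have h3 : (1 + 1 / (2 * (n : ℝ) + 16)) * a n = R n + a n := by unfold R; ring
    linarith
  have h3 : ‖P n z‖ ≤ 2 * (((1 + 1 / (2 * (n : ℝ) + 16)) * a n) ^ (2 * n + 16) / b n) := by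
    refine P_upper n _ ?_ z h1
    have : (0 : ℝ) < 1 / (2 * (n : ℝ) + 16) := by positivity
    nlinarith
  have h4 : (1 + 1 / (2 * (n : ℝ) + 16)) ^ (2 * n + 16) ≤ 3 := by
    have h5 := Real.add_one_le_exp (1 / (2 * (n : ℝ) + 16))
    calc (1 + 1 / (2 * (n : ℝ) + 16)) ^ (2 * n + 16)
        ≤ Real.exp (1 / (2 * (n : ℝ) + 16)) ^ (2 * n + 16) := by
          gcongr
          linarith
      _ = Real.exp 1 := by
          rw [← Real.exp_nat_mul]
          congr 1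
          push_cast
          field_simp
      _ ≤ 3 := by linarith [Real.exp_one_lt_d9]
  have h5 : ‖P n z‖ ≤ 6 * S n := by
    refine h3.trans ?_
    have h6 := b_pos n
    rw [mul_pow, mul_div_assoc]
    have : 0 < a n ^ (2 * n + 16) / b n := by positivity
    unfold S
    nlinarith
  have h6 : ‖1 + z / a n‖ ≤ 3 := by
    refine (norm_add_le _ _).trans ?_
    rw [norm_one, norm_div, Complex.norm_real, Real.norm_eq_abs, abs_of_pos ha]
    have : ‖z‖ / a n ≤ 2 := by rw [div_le_iff₀ ha]; linarith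
    linarith
  have h7 : ‖T (n + 1) z‖ ≤ 2 := by
    refine T_upper (n + 1) z ?_
    have := a_grow n
    linarith
  have h8 := S_pos n
  rw [G, norm_mul, norm_mul]
  calc ‖P n z‖ * ‖1 + z / a n‖ * ‖T (n + 1) z‖ ≤ (6 * S n) * 3 * 2 := by gcongr
    _ = _ := by ring

theorem G_lower (n : ℕ) : 1 / 2 * S n ≤ ‖G n (a n)‖ := by
  have ha := a_pos n
  have hna : ‖(a n : ℂ)‖ = a n := by rw [Complex.norm_real, Real.norm_eq_abs, abs_of_pos ha]
  have h1 := P_lower n (a n : ℂ) (by rw [hna]; linarith)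
  have h2 := T_lower (n + 1) (a n : ℂ) (by rw [hna]; linarith [a_grow n])
  rw [hna] at h1
  have h0 : (a n : ℂ) ≠ 0 := by exact_mod_cast ha.ne'
  rw [G, norm_mul, norm_mul, div_self h0]
  have h3 : ‖(1 + 1 : ℂ)‖ = 2 := by norm_num
  rw [h3]
  change 1 / 2 * S n ≤ ‖P n (a n : ℂ)‖ at h1
  have := S_pos n
  nlinarith [norm_nonneg (P n (a n : ℂ))]

theorem G_lipschitz (n : ℕ) {x y : ℂ} (hx : x ∈ closedBall (a n : ℂ) (r n))
    (hy : y ∈ closedBall (a n : ℂ) (r n)) : ‖G n x - G n y‖ ≤ 72 * S n / R n * ‖x - y‖ := by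
  have hr := r_pos n
  have hR : 0 < R n := by rw [R_eq]; positivity
  refine Convex.norm_image_sub_le_of_norm_deriv_le (s := closedBall (a n : ℂ) (r n))
    (fun z _ => (differentiable_G n) z) (fun z hz => ?_) (convex_closedBall _ _) hy hx
  have h1 : ∀ w ∈ sphere z (R n / 2), ‖G n w‖ ≤ 36 * S n := by
    intro w hw
    refine G_upper n w ?_
    rw [mem_sphere_iff_norm] at hw
    rw [mem_closedBall_iff_norm] at hz
    calc ‖w - a n‖ = ‖(w - z) + (z - a n)‖ := by congr 1; ring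
      _ ≤ ‖w - z‖ + ‖z - a n‖ := norm_add_le _ _
      _ ≤ R n / 2 + r n := by rw [hw]; gcongr
      _ ≤ R n := by rw [R_eq]; linarith
  have h2 := Complex.norm_deriv_le_of_forall_mem_sphere_norm_le (c := z) (R := R n / 2)
    (by positivity) (differentiable_G n).diffContOnCl h1
  refine h2.trans (le_of_eq ?_)
  field_simp
  ring

theorem expand_pos (n : ℕ) {x y : ℂ} (hx : x ∈ closedBall (a n : ℂ) (r n))
    (hy : y ∈ closedBall (a n : ℂ) (r n)) : 4 * (a (n + 1) / a n) * ‖x - y‖ ≤ ‖f x - f y‖ := by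
  have hr := r_pos n
  have ha := a_pos n
  have ha' := a_pos (n + 1)
  have hR : 0 < R n := by rw [R_eq]; positivity
  have hS := S_pos n
  have h0 : (a n : ℂ) ≠ 0 := by exact_mod_cast ha.ne'
  have hac : (a n : ℂ) ∈ closedBall (a n : ℂ) (r n) := mem_closedBall_self hr.le
  have h1 : ‖G n x - G n (a n)‖ ≤ 72 * S n / 1000 := by
    refine (G_lipschitz n hx hac).trans ?_
    rw [mem_closedBall_iff_norm] at hx
    calc 72 * S n / R n * ‖x - a n‖ ≤ 72 * S n / R n * r n := by gcongr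
      _ = _ := by rw [R_eq]; field_simp
  have h2 : 2 / 5 * S n ≤ ‖G n x‖ := by
    have h3 := norm_sub_norm_le (G n (a n)) (G n x)
    rw [norm_sub_rev] at h3
    have := G_lower n
    linarith
  have h4 : ‖f x - f y‖ * a n = ‖(x - y) * G n x - (a n - y) * (G n x - G n y)‖ := by
    have h5 : (f x - f y) * a n = -((x - y) * G n x - (a n - y) * (G n x - G n y)) := by
      rw [f_eq_G n x, f_eq_G n y]
      field_simp
      ring
    have h6 := congrArg norm h5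
    rw [norm_mul, norm_neg, Complex.norm_real, Real.norm_eq_abs, abs_of_pos ha] at h6
    exact h6
  have h7 : ‖(x - y) * G n x‖ - ‖(a n - y) * (G n x - G n y)‖ ≤ ‖f x - f y‖ * a n := by
    rw [h4]; exact norm_sub_norm_le _ _
  have h8 : ‖(a n - y) * (G n x - G n y)‖ ≤ 72 * S n / 1000 * ‖x - y‖ := by
    rw [norm_mul]
    have h9 := G_lipschitz n hx hy
    have h10 : ‖(a n : ℂ) - y‖ ≤ r n := by
      rw [mem_closedBall_iff_norm, norm_sub_rev] at hy; exact hy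
    calc ‖(a n : ℂ) - y‖ * ‖G n x - G n y‖ ≤ r n * (72 * S n / R n * ‖x - y‖) := by gcongr
      _ = _ := by rw [R_eq]; field_simp
  rw [norm_mul] at h7
  have h11 : 3 / 10 * S n * ‖x - y‖ ≤ ‖f x - f y‖ * a n := by nlinarith [norm_nonneg (x - y)]
  have h12 : (4 : ℝ) ^ 16 ≤ 4 ^ (2 * n + 16) := pow_le_pow_right₀ (by norm_num) (by omega)
  have h13 : 4 * a (n + 1) ≤ 3 / 10 * S n := by rw [S_eq]; norm_num at h12; nlinarith
  rw [← mul_le_mul_iff_left₀ ha]
  calc 4 * (a (n + 1) / a n) * ‖x - y‖ * a n = 4 * a (n + 1) * ‖x - y‖ := by field_simp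
    _ ≤ 3 / 10 * S n * ‖x - y‖ := by gcongr
    _ ≤ _ := h11

theorem u_neg (k : ℕ) (z : ℂ) : u k (-z) = u k z := by rw [u, u, neg_sq]

theorem f_neg (z : ℂ) : f (-z) = f z := by
  rw [f, f]
  simp only [u_neg]
  rw [show (16 : ℕ) = 2 * 8 by norm_num, pow_mul, pow_mul, neg_sq]

/-- the two centres -/
noncomputable def ctr (n : ℕ) (s : Bool) : ℂ := if s then (a n : ℂ) else -(a n : ℂ)

theorem norm_ctr (n : ℕ) (s : Bool) : ‖ctr n s‖ = a n := by
  have ha := a_pos n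
  cases s
  · simp [ctr, abs_of_pos ha]
  · simp [ctr, abs_of_pos ha]

theorem expand (n : ℕ) (s : Bool) {x y : ℂ} (hx : x ∈ closedBall (ctr n s) (r n))
    (hy : y ∈ closedBall (ctr n s) (r n)) : 4 * (a (n + 1) / a n) * ‖x - y‖ ≤ ‖f x - f y‖ := by
  cases s
  · have hx' : -x ∈ closedBall (a n : ℂ) (r n) := by
      rw [mem_closedBall_iff_norm] at hx ⊢
      simp only [ctr, Bool.false_eq_true, if_false] at hx
      rw [show -x - (a n : ℂ) = -(x - -(a n : ℂ)) by ring, norm_neg]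
      exact hx
    have hy' : -y ∈ closedBall (a n : ℂ) (r n) := by
      rw [mem_closedBall_iff_norm] at hy ⊢
      simp only [ctr, Bool.false_eq_true, if_false] at hy
      rw [show -y - (a n : ℂ) = -(y - -(a n : ℂ)) by ring, norm_neg]
      exact hy
    have h := expand_pos n hx' hy'
    rw [f_neg, f_neg] at h
    convert h using 2
    rw [← norm_neg]
    congr 1
    ring
  · exact expand_pos n (by simpa [ctr] using hx) (by simpa [ctr] using hy)

theorem f_ctr (n : ℕ) (s : Bool) : f (ctr n s) = 0 := by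
  cases s
  · simpa [ctr] using f_neg_a n
  · simpa [ctr] using f_a n

end Pool.Agent.Work.MP_571b65_an
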