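import Mathlib
import Pool.Agent.Work.MP_571b65_an.Est
import Pool.Agent.Work.MP_571b65_an.Fatou
import Pool.Agent.Work.MP_571b65_an.Topo

/-!
# The Fatou components containing the absorbing annuli
-/

open Filter Topology Metric Set

namespace Pool.Agent.Work.MP_571b65_an

theorem isOpenMap_f : IsOpenMap f := by
  have h : AnalyticOnNhd ℂ f univ := fun z _ => differentiable_f.analyticAt z
  refine h.is_constant_or_isOpenMap.resolve_left ?_
  rintro ⟨c, hc⟩
  obtain ⟨z, hz⟩ := f_transcendental (Polynomial.C c)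
  rw [Polynomial.eval_C] at hz
  exact hz (hc z)

theorem a_tendsto : Tendsto a atTop atTop := by
  refine tendsto_atTop_mono (f := fun n : ℕ => (n : ℝ)) (fun n => ?_) tendsto_natCast_atTop_atTop
  have h1 := a_grow_add 0 n
  rw [zero_add, a_zero] at h1
  have h2 : (n : ℝ) ≤ 64 ^ n := by
    have : n < 64 ^ n := Nat.lt_pow_self (by norm_num)
    exact_mod_cast this.le
  nlinarith

theorem mem_E_of_strict {n : ℕ} {z : ℂ} (h1 : 2 * a n ≤ ‖z‖) (h2 : ‖z‖ ≤ a (n + 1) / 8) :
    z ∈ E n := by
  have ha := a_pos n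
  have hr := r_le n
  have hn : ‖(a n : ℂ)‖ = a n := by rw [Complex.norm_real, Real.norm_eq_abs, abs_of_pos ha]
  refine ⟨by linarith, h2, ?_, ?_⟩
  · have := norm_sub_norm_le z (a n : ℂ)
    rw [hn] at this
    linarith
  · have := norm_sub_norm_le z (-(a n : ℂ))
    rw [norm_neg, hn, sub_neg_eq_add] at this
    linarith

theorem B_subset_E (n : ℕ) : B n ⊆ E n := fun _ hz => mem_E_of_strict hz.1 hz.2

theorem map_E {n : ℕ} {z : ℂ} (hz : z ∈ E n) : f z ∈ B (n + 1) :=
  ⟨est_lower n z hz, (est_upper n z hz.2.1).le⟩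

theorem map_B {n : ℕ} {z : ℂ} (hz : z ∈ B n) : f z ∈ B (n + 1) := map_E (B_subset_E n hz)

theorem iterate_B {n : ℕ} {z : ℂ} (hz : z ∈ B n) (j : ℕ) : f^[j] z ∈ B (n + j) := by
  induction j with
  | zero => exact hz
  | succ j ih => rw [Function.iterate_succ_apply']; exact map_B ih

theorem iterate_E {n : ℕ} {z : ℂ} (hz : z ∈ E n) (j : ℕ) : f^[j] z ∈ E (n + j) := by
  cases j with
  | zero => exact hz
  | succ j =>
    rw [Function.iterate_succ_apply]
    have := iterate_B (map_E hz) j
    rw [show n + (j + 1) = n + 1 + j by ring]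
    exact B_subset_E _ this

theorem escAt_E {n : ℕ} {z : ℂ} (hz : z ∈ E n) : EscAt f z := by
  have ha := a_pos (n + 1)
  have hr := r_le (n + 1)
  have hn : ‖(a (n + 1) : ℂ)‖ = a (n + 1) := by
    rw [Complex.norm_real, Real.norm_eq_abs, abs_of_pos ha]
  let Ω : Set ℂ := {w | a (n + 1) < ‖w‖ - a (n + 1) / 2 ∧ ‖w‖ < a (n + 2) / 8}
  have hΩ : IsOpen Ω := by
    have h1 : IsOpen {w : ℂ | a (n + 1) < ‖w‖ - a (n + 1) / 2} :=
      isOpen_lt continuous_const (continuous_norm.sub continuous_const)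
    have h2 : IsOpen {w : ℂ | ‖w‖ < a (n + 2) / 8} := isOpen_lt continuous_norm continuous_const
    exact h1.inter h2
  have hΩE : Ω ⊆ E (n + 1) := by
    intro w hw
    obtain ⟨h1, h2⟩ := hw
    refine ⟨by linarith, h2.le, ?_, ?_⟩
    · have := norm_sub_norm_le w (a (n + 1) : ℂ)
      rw [hn] at this
      linarith
    · have := norm_sub_norm_le w (-(a (n + 1) : ℂ))
      rw [norm_neg, hn, sub_neg_eq_add] at this
      linarith
  refine ⟨f ⁻¹' Ω, hΩ.preimage differentiable_f.continuous, ?_, fun M => ?_⟩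
  · exact ⟨by linarith [est_lower n z hz], est_upper n z hz.2.1⟩
  · have h1 : Tendsto (fun j => a j / 2) atTop atTop := a_tendsto.atTop_div_const (by norm_num)
    have h2 := h1.eventually (eventually_gt_atTop M)
    rw [eventually_atTop] at h2
    obtain ⟨J, hJ⟩ := h2
    filter_upwards [eventually_ge_atTop (J + 1)] with j hj w hw
    obtain ⟨i, rfl⟩ : ∃ i, j = i + 1 := ⟨j - 1, by omega⟩
    rw [Function.iterate_succ_apply]
    have h3 := (iterate_E (hΩE hw) i).1
    have h4 := hJ (n + 1 + i) (by omega)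
    linarith

/-- the Fatou components -/
def U (n : ℕ) : Set ℂ := connectedComponentIn (fatouSet f) (2 * a n : ℂ)

theorem two_a_mem_B (n : ℕ) : (2 * a n : ℂ) ∈ B n := by
  have ha := a_pos n
  have h : ‖(2 * a n : ℂ)‖ = 2 * a n := by
    rw [norm_mul, Complex.norm_real, Real.norm_eq_abs, abs_of_pos ha]; norm_num
  refine ⟨h.ge, ?_⟩
  rw [h]
  linarith [a_grow n]

theorem two_a_mem_fatou (n : ℕ) : (2 * a n : ℂ) ∈ fatouSet f :=
  (escAt_E (B_subset_E n (two_a_mem_B n))).mem_fatouSet

theorem isOpen_U (n : ℕ) : IsOpen (U n) := isOpen_fatouSet.connectedComponentIn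

theorem isPreconnected_U (n : ℕ) : IsPreconnected (U n) := isPreconnected_connectedComponentIn

theorem two_a_mem_U (n : ℕ) : (2 * a n : ℂ) ∈ U n := mem_connectedComponentIn (two_a_mem_fatou n)

theorem U_subset (n : ℕ) : U n ⊆ fatouSet f := connectedComponentIn_subset _ _

theorem subset_U {n : ℕ} {Q : Set ℂ} (hQ : IsPreconnected Q) (hF : Q ⊆ fatouSet f)
    (hne : (Q ∩ U n).Nonempty) : Q ⊆ U n := by
  obtain ⟨y, hy, hyU⟩ := hne
  have h1 := hQ.subset_connectedComponentIn hy hF
  rwa [← connectedComponentIn_eq hyU] at h1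

theorem escAt_U {n : ℕ} {z : ℂ} (hz : z ∈ U n) : EscAt f z :=
  (escAt_E (B_subset_E n (two_a_mem_B n))).component hz

theorem isPreconnected_B (n : ℕ) : IsPreconnected (B n) := by
  have h : B n = (fun x : ℝ × ℝ => (x.1 : ℂ) * Complex.exp (x.2 * Complex.I)) ''
      (Icc (2 * a n) (a (n + 1) / 8) ×ˢ univ) := by
    ext z
    constructor
    · intro hz
      refine ⟨(‖z‖, z.arg), ⟨⟨hz.1, hz.2⟩, mem_univ _⟩, ?_⟩
      exact Complex.norm_mul_exp_arg_mul_I z
    · rintro ⟨⟨x, θ⟩, ⟨⟨h1, h2⟩, -⟩, rfl⟩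
      have ha := a_pos n
      have hx : 0 < x := by linarith
      have : ‖(x : ℂ) * Complex.exp (θ * Complex.I)‖ = x := by
        rw [norm_mul, Complex.norm_exp_ofReal_mul_I, mul_one, Complex.norm_real,
          Real.norm_eq_abs, abs_of_pos hx]
      refine ⟨?_, ?_⟩
      · show 2 * a n ≤ ‖(x : ℂ) * Complex.exp (θ * Complex.I)‖
        rw [this]; exact h1
      · show ‖(x : ℂ) * Complex.exp (θ * Complex.I)‖ ≤ a (n + 1) / 8
        rw [this]; exact h2
  rw [h]
  exact (isPreconnected_Icc.prod isPreconnected_univ).image _ (by fun_prop)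

theorem B_subset_U (n : ℕ) : B n ⊆ U n :=
  subset_U (isPreconnected_B n) (fun _ hz => (escAt_E (B_subset_E n hz)).mem_fatouSet)
    ⟨_, two_a_mem_B n, two_a_mem_U n⟩

theorem closedBall_norm {n : ℕ} {s : Bool} {z : ℂ} (hz : z ∈ closedBall (ctr n s) (r n)) :
    a n / 2 ≤ ‖z‖ ∧ ‖z‖ < 2 * a n := by
  have ha := a_pos n
  have hr := r_le n
  rw [mem_closedBall_iff_norm] at hz
  have h1 := norm_sub_norm_le z (ctr n s)
  have h2 := norm_sub_norm_le (ctr n s) z
  rw [norm_ctr] at h1 h2
  rw [norm_sub_rev] at h2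
  constructor <;> linarith

theorem sphere_subset_E (n : ℕ) (s : Bool) : sphere (ctr n s) (r n) ⊆ E n := by
  intro z hz
  have ha := a_pos n
  have hr := r_le n
  have hr0 := r_pos n
  obtain ⟨h1, h2⟩ := closedBall_norm (sphere_subset_closedBall hz)
  rw [mem_sphere_iff_norm] at hz
  refine ⟨h1, by linarith [a_grow n], ?_, ?_⟩
  · cases s
    · have h3 : 2 * a n ≤ ‖z - a n‖ + ‖z - ctr n false‖ := by
        have h4 : ‖(2 * a n : ℂ)‖ = 2 * a n := by
          rw [norm_mul, Complex.norm_real, Real.norm_eq_abs, abs_of_pos ha]; norm_num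
        rw [← h4, show (2 * a n : ℂ) = (z - ctr n false) - (z - a n) by simp [ctr]; ring]
        refine (norm_sub_le _ _).trans ?_
        linarith
      rw [hz] at h3
      linarith
    · simp only [ctr, if_true] at hz
      exact hz.ge
  · cases s
    · simp only [ctr, Bool.false_eq_true, if_false, sub_neg_eq_add] at hz
      exact hz.ge
    · have h3 : 2 * a n ≤ ‖z + a n‖ + ‖z - ctr n true‖ := by
        have h4 : ‖(2 * a n : ℂ)‖ = 2 * a n := by
          rw [norm_mul, Complex.norm_real, Real.norm_eq_abs, abs_of_pos ha]; norm_num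
        rw [← h4, show (2 * a n : ℂ) = (z + a n) - (z - ctr n true) by simp [ctr]; ring]
        refine (norm_sub_le _ _).trans ?_
        linarith
      rw [hz] at h3
      linarith

/-- the sign -/
noncomputable def sg (s : Bool) : ℂ := if s then 1 else -1

theorem norm_sg (s : Bool) : ‖sg s‖ = 1 := by cases s <;> simp [sg]

theorem sphere_subset_U (n : ℕ) (s : Bool) : sphere (ctr n s) (r n) ⊆ U n := by
  have ha := a_pos n
  have hr := r_le n
  have hr0 := r_pos n
  -- the connecting segment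
  let I : Set ℂ := (fun x : ℝ => sg s * x) '' Icc (a n + r n) (2 * a n)
  have hI : IsPreconnected I := isPreconnected_Icc.image _ (by fun_prop)
  have hIE : I ⊆ E n := by
    rintro _ ⟨x, ⟨hx1, hx2⟩, rfl⟩
    have hx : 0 < x := by linarith
    have hn : ‖sg s * (x : ℂ)‖ = x := by
      rw [norm_mul, norm_sg, one_mul, Complex.norm_real, Real.norm_eq_abs, abs_of_pos hx]
    have hn' : ‖(a n : ℂ)‖ = a n := by rw [Complex.norm_real, Real.norm_eq_abs, abs_of_pos ha]
    have e1 := norm_sub_norm_le (sg s * (x : ℂ)) (a n : ℂ)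
    have e2 := norm_sub_norm_le (sg s * (x : ℂ)) (-(a n : ℂ))
    rw [norm_neg, sub_neg_eq_add] at e2
    rw [hn, hn'] at e1 e2
    refine ⟨?_, ?_, by simpa using by linarith, by simpa using by linarith⟩
    · show a n / 2 ≤ ‖sg s * (x : ℂ)‖
      rw [hn]; linarith
    · show ‖sg s * (x : ℂ)‖ ≤ _
      rw [hn]; linarith [a_grow n]
  have hrank : 1 < Module.rank ℝ ℂ := by rw [Complex.rank_real_complex]; norm_num
  have hS : IsPreconnected (sphere (ctr n s) (r n)) := isPreconnected_sphere hrank _ _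
  have hmem : sg s * ((a n + r n : ℝ) : ℂ) ∈ sphere (ctr n s) (r n) := by
    rw [mem_sphere_iff_norm]
    have : sg s * ((a n + r n : ℝ) : ℂ) - ctr n s = sg s * (r n : ℂ) := by
      cases s <;> simp [sg, ctr]
    rw [this, norm_mul, norm_sg, one_mul, Complex.norm_real, Real.norm_eq_abs, abs_of_pos hr0]
  have hmem' : sg s * ((a n + r n : ℝ) : ℂ) ∈ I := ⟨a n + r n, ⟨le_refl _, by linarith⟩, rfl⟩
  have hu : IsPreconnected (sphere (ctr n s) (r n) ∪ I) := hS.union _ hmem hmem' hI
  have hE : sphere (ctr n s) (r n) ∪ I ⊆ E n := union_subset (sphere_subset_E n s) hIE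
  have hne : ((sphere (ctr n s) (r n) ∪ I) ∩ U n).Nonempty := by
    refine ⟨sg s * ((2 * a n : ℝ) : ℂ), Or.inr ⟨2 * a n, ⟨by linarith, le_refl _⟩, rfl⟩, ?_⟩
    refine B_subset_U n ?_
    have h : ‖sg s * ((2 * a n : ℝ) : ℂ)‖ = 2 * a n := by
      rw [norm_mul, norm_sg, one_mul, Complex.norm_real, Real.norm_eq_abs,
        abs_of_pos (by positivity)]
    refine ⟨h.ge, ?_⟩
    rw [h]; linarith [a_grow n]
  exact (subset_union_left).trans
    (subset_U hu (fun z hz => (escAt_E (hE hz)).mem_fatouSet) hne)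

theorem map_U (n : ℕ) : f '' U n ⊆ U (n + 1) := by
  refine subset_U ((isPreconnected_U n).image f differentiable_f.continuous.continuousOn) ?_ ?_
  · rintro _ ⟨z, hz, rfl⟩
    exact ((escAt_U hz).map isOpenMap_f).mem_fatouSet
  · exact ⟨f (2 * a n), mem_image_of_mem f (two_a_mem_U n), B_subset_U _ (map_B (two_a_mem_B n))⟩

theorem iterate_U (n j : ℕ) : f^[j] '' U n ⊆ U (n + j) := by
  induction j with
  | zero => simp
  | succ j ih =>
    rw [Function.iterate_succ', image_comp]
    exact (image_mono ih).trans (map_U (n + j))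

/-- Key lemma: points of the closed disc mapped into `U (n+1)` are in `U n`. -/
theorem pull {n : ℕ} {s : Bool} {z : ℂ} (hz : z ∈ closedBall (ctr n s) (r n))
    (hfz : f z ∈ U (n + 1)) : z ∈ U n := by
  have hcont := differentiable_f.continuous
  set A : Set ℂ := f ⁻¹' U (n + 1) with hA
  have hAF : A ⊆ fatouSet f := fun w hw => mem_fatouSet_of_map hcont (U_subset _ hw)
  have hAo : IsOpen A := (isOpen_U (n + 1)).preimage hcont
  set V := connectedComponentIn A z with hV
  have hVo : IsOpen V := hAo.connectedComponentIn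
  have hVp : IsPreconnected V := isPreconnected_connectedComponentIn
  have hzV : z ∈ V := mem_connectedComponentIn hfz
  have hVA : V ⊆ A := connectedComponentIn_subset _ _
  by_cases hne : (V ∩ U n).Nonempty
  · exact subset_U hVp (hVA.trans hAF) hne hzV
  exfalso
  rw [Set.not_nonempty_iff_eq_empty] at hne
  have hVS : ∀ w ∈ V, w ∉ sphere (ctr n s) (r n) := by
    intro w hw hw'
    have : w ∈ V ∩ U n := ⟨hw, sphere_subset_U n s hw'⟩
    rw [hne] at this
    exact this
  have hVb : V ⊆ ball (ctr n s) (r n) := by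
    refine subset_of_disjoint_frontier hVp isOpen_ball ?_ ⟨z, hzV, ?_⟩
    · rw [frontier_ball _ (r_pos n).ne', Set.disjoint_left]
      exact hVS
    · rcases (mem_closedBall.mp hz).lt_or_eq with h | h
      · exact h
      · exact absurd h (hVS z hzV)
  have hVc : closure V ⊆ closedBall (ctr n s) (r n) :=
    closure_minimal (hVb.trans ball_subset_closedBall) isClosed_closedBall
  have hVcomp : IsCompact (closure V) :=
    (isCompact_closedBall (ctr n s) (r n)).of_isClosed_subset isClosed_closure hVc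
  have hsurj : U (n + 1) ⊆ f '' V := by
    refine (isPreconnected_U (n + 1)).subset_of_closure_inter_subset (isOpenMap_f V hVo)
      ⟨f z, hfz, mem_image_of_mem f hzV⟩ ?_
    rintro w ⟨hw1, hw2⟩
    have h1 : closure (f '' V) ⊆ f '' closure V :=
      closure_minimal (image_mono subset_closure) (hVcomp.image hcont).isClosed
    obtain ⟨v, hv, rfl⟩ := h1 hw1
    refine mem_image_of_mem f ?_
    have h2 : IsPreconnected (insert v V) :=
      hVp.subset_closure (subset_insert _ _) (insert_subset hv subset_closure)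
    have h3 : insert v V ⊆ A := insert_subset hw2 hVA
    exact h2.subset_connectedComponentIn (mem_insert_of_mem _ hzV) h3 (mem_insert _ _)
  have ha' := a_pos (n + 2)
  have hpt : ((a (n + 2) / 8 : ℝ) : ℂ) ∈ U (n + 1) := by
    refine B_subset_U _ ?_
    have h : ‖((a (n + 2) / 8 : ℝ) : ℂ)‖ = a (n + 2) / 8 := by
      rw [Complex.norm_real, Real.norm_eq_abs, abs_of_pos (by positivity)]
    refine ⟨?_, h.le⟩
    rw [h]
    linarith [a_grow (n + 1), a_pos (n + 1)]
  obtain ⟨v, hv, hv'⟩ := hsurj hpt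
  have h1 := closedBall_norm (ball_subset_closedBall (hVb hv))
  have h2 := est_upper n v (by linarith [a_grow n])
  rw [hv', Complex.norm_real, Real.norm_eq_abs, abs_of_pos (by positivity)] at h2
  exact lt_irrefl _ h2

end Pool.Agent.Work.MP_571b65_an
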