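import Mathlib
import Pool.Agent.Work.MP_571b65_an.Comp

/-!
# Point components
-/

open Filter Topology Metric Set

namespace Pool.Agent.Work.MP_571b65_an

/-- open cylinder sets -/
def Cyl (n : ℕ) (s : ℕ → Bool) (k : ℕ) : Set ℂ :=
  {z | ∀ j ≤ k, f^[j] z ∈ ball (ctr (n + j) (s j)) (r (n + j))}

/-- closed cylinder sets -/
def CylC (n : ℕ) (s : ℕ → Bool) (k : ℕ) : Set ℂ :=
  {z | ∀ j ≤ k, f^[j] z ∈ closedBall (ctr (n + j) (s j)) (r (n + j))}

theorem Cyl_subset_CylC (n : ℕ) (s : ℕ → Bool) (k : ℕ) : Cyl n s k ⊆ CylC n s k :=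
  fun _ hz j hj => ball_subset_closedBall (hz j hj)

theorem isOpen_Cyl (n : ℕ) (s : ℕ → Bool) (k : ℕ) : IsOpen (Cyl n s k) := by
  have : Cyl n s k = ⋂ j ∈ Finset.range (k + 1),
      f^[j] ⁻¹' ball (ctr (n + j) (s j)) (r (n + j)) := by
    ext z
    simp only [Cyl, Set.mem_ofPred_eq, Finset.mem_range, mem_iInter, mem_preimage,
      Nat.lt_succ_iff]
  rw [this]
  exact isOpen_biInter_finset fun j _ => isOpen_ball.preimage (differentiable_f.continuous.iterate j)

theorem isClosed_CylC (n : ℕ) (s : ℕ → Bool) (k : ℕ) : IsClosed (CylC n s k) := by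
  have : CylC n s k = ⋂ j ∈ Finset.range (k + 1),
      f^[j] ⁻¹' closedBall (ctr (n + j) (s j)) (r (n + j)) := by
    ext z
    simp only [CylC, Set.mem_ofPred_eq, Finset.mem_range, mem_iInter, mem_preimage,
      Nat.lt_succ_iff]
  rw [this]
  exact isClosed_biInter fun j _ =>
    isClosed_closedBall.preimage (differentiable_f.continuous.iterate j)

theorem CylC_subset_closedBall (n : ℕ) (s : ℕ → Bool) (k : ℕ) :
    CylC n s k ⊆ closedBall (ctr n (s 0)) (r n) := fun _ hz => hz 0 (Nat.zero_le _)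

/-- a point of a closed cylinder on the boundary at some stage is in `U n` -/
theorem mem_U_of_iterate (j : ℕ) : ∀ (n : ℕ) (s : ℕ → Bool) (z : ℂ),
    (∀ i < j, f^[i] z ∈ closedBall (ctr (n + i) (s i)) (r (n + i))) →
      f^[j] z ∈ U (n + j) → z ∈ U n := by
  induction j with
  | zero => intro n s z _ h; exact h
  | succ j ih =>
    intro n s z h1 h2
    refine pull (h1 0 (Nat.succ_pos _)) (ih (n + 1) (fun i => s (i + 1)) (f z) ?_ ?_)
    · intro i hi
      have := h1 (i + 1) (by omega)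
      rw [Function.iterate_succ_apply] at this
      rw [show n + 1 + i = n + (i + 1) by ring]
      exact this
    · rw [Function.iterate_succ_apply] at h2
      rw [show n + 1 + j = n + (j + 1) by ring]
      exact h2

theorem frontier_Cyl (n : ℕ) (s : ℕ → Bool) (k : ℕ) :
    frontier (Cyl n s k) ⊆ U n ∩ closedBall (ctr n (s 0)) (r n) := by
  rintro z ⟨h1, h2⟩
  rw [(isOpen_Cyl n s k).interior_eq] at h2
  have h3 : z ∈ CylC n s k := closure_minimal (Cyl_subset_CylC n s k) (isClosed_CylC n s k) h1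
  refine ⟨?_, CylC_subset_closedBall n s k h3⟩
  simp only [Cyl, Set.mem_ofPred_eq] at h2
  push Not at h2
  obtain ⟨j, hj, hj'⟩ := h2
  refine mem_U_of_iterate j n s z (fun i hi => h3 i (by omega)) ?_
  refine sphere_subset_U (n + j) (s j) ?_
  have h4 := h3 j hj
  rw [mem_closedBall] at h4
  rw [mem_ball, not_lt] at hj'
  exact le_antisymm h4 hj'

theorem expand_iterate {n : ℕ} {s : ℕ → Bool} {k : ℕ} {x y : ℂ} (hx : x ∈ CylC n s k)
    (hy : y ∈ CylC n s k) (j : ℕ) (hj : j ≤ k + 1) :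
    4 ^ j * (a (n + j) / a n) * ‖x - y‖ ≤ ‖f^[j] x - f^[j] y‖ := by
  induction j with
  | zero =>
    rw [pow_zero, add_zero, div_self (a_pos n).ne']
    simp
  | succ j ih =>
    have h1 := ih (by omega)
    have h2 := expand (n + j) (s j) (hx j (by omega)) (hy j (by omega))
    rw [← Function.iterate_succ_apply' f, ← Function.iterate_succ_apply' f] at h2
    have ha := a_pos n
    have ha1 := a_pos (n + j)
    have ha2 := a_pos (n + j + 1)
    rw [show n + (j + 1) = n + j + 1 by ring]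
    calc 4 ^ (j + 1) * (a (n + j + 1) / a n) * ‖x - y‖
        = 4 * (a (n + j + 1) / a (n + j)) * (4 ^ j * (a (n + j) / a n) * ‖x - y‖) := by
          rw [pow_succ]; field_simp
      _ ≤ 4 * (a (n + j + 1) / a (n + j)) * ‖f^[j] x - f^[j] y‖ := by gcongr
      _ ≤ _ := h2

theorem diam_CylC {n : ℕ} {s : ℕ → Bool} {k : ℕ} {x y : ℂ} (hx : x ∈ CylC n s k)
    (hy : y ∈ CylC n s k) : ‖x - y‖ ≤ a n * (1 / 4) ^ k := by
  have h1 := expand_iterate hx hy k (by omega)
  have h2 := hx k le_rfl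
  have h3 := hy k le_rfl
  rw [mem_closedBall_iff_norm] at h2 h3
  have h4 : ‖f^[k] x - f^[k] y‖ ≤ 2 * r (n + k) := by
    calc ‖f^[k] x - f^[k] y‖ = ‖(f^[k] x - ctr (n + k) (s k)) - (f^[k] y - ctr (n + k) (s k))‖ := by
          congr 1; ring
      _ ≤ _ := norm_sub_le _ _
      _ ≤ _ := by linarith
  have h5 := r_le (n + k)
  have ha := a_pos n
  have ha1 := a_pos (n + k)
  have h6 : 4 ^ k * (a (n + k) / a n) * ‖x - y‖ ≤ a (n + k) := by linarith
  have h7 : 4 ^ k * ‖x - y‖ ≤ a n := by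
    have h8 : 4 ^ k * (a (n + k) / a n) * ‖x - y‖ = (4 ^ k * ‖x - y‖) * (a (n + k) / a n) := by ring
    rw [h8] at h6
    have h9 : a (n + k) = a n * (a (n + k) / a n) := by field_simp
    rw [h9] at h6
    have h10 : a n * (a (n + k) / a n) / a n = a (n + k) / a n := by field_simp
    rw [h10] at h6
    exact le_of_mul_le_mul_right h6 (by positivity)
  have h8 : (0 : ℝ) < 4 ^ k := by positivity
  rw [one_div, inv_pow, ← div_eq_mul_inv, le_div_iff₀ h8]
  linarith

/-- every small value is taken in each disc -/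
theorem surj {n : ℕ} {s : Bool} {w : ℂ} (hw : ‖w‖ < 2 * a (n + 1)) :
    ∃ z ∈ ball (ctr n s) (r n), f z = w := by
  have hcont := differentiable_f.continuous
  have hr := r_pos n
  have h1 : ball (0 : ℂ) (2 * a (n + 1)) ⊆ f '' ball (ctr n s) (r n) := by
    refine (convex_ball (0 : ℂ) (2 * a (n + 1))).isPreconnected.subset_of_closure_inter_subset
      (isOpenMap_f _ isOpen_ball) ⟨0, ?_, ?_⟩ ?_
    · exact mem_ball_self (by linarith [a_pos (n + 1)])
    · exact ⟨ctr n s, mem_ball_self hr, f_ctr n s⟩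
    · rintro w ⟨hw1, hw2⟩
      have h2 : closure (f '' ball (ctr n s) (r n)) ⊆ f '' closedBall (ctr n s) (r n) :=
        closure_minimal (image_mono ball_subset_closedBall)
          ((isCompact_closedBall _ _).image hcont).isClosed
      obtain ⟨z, hz, rfl⟩ := h2 hw1
      refine mem_image_of_mem f ?_
      rcases (mem_closedBall.mp hz).lt_or_eq with h | h
      · exact h
      · exfalso
        have h3 := est_lower n z (sphere_subset_E n s h)
        rw [mem_ball_zero_iff] at hw2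
        linarith
  obtain ⟨z, hz, hz'⟩ := h1 (by rw [mem_ball_zero_iff]; exact hw)
  exact ⟨z, hz, hz'⟩

theorem exists_zero (k : ℕ) : ∀ (n : ℕ) (s : ℕ → Bool),
    ∃ z ∈ Cyl n s k, f^[k] z = ctr (n + k) (s k) := by
  induction k with
  | zero =>
    intro n s
    refine ⟨ctr n (s 0), fun j hj => ?_, rfl⟩
    obtain rfl : j = 0 := by omega
    exact mem_ball_self (r_pos n)
  | succ k ih =>
    intro n s
    obtain ⟨w, hw, hw'⟩ := ih (n + 1) (fun i => s (i + 1))
    have h1 : ‖w‖ < 2 * a (n + 1) := (closedBall_norm (ball_subset_closedBall (hw 0 (Nat.zero_le _)))).2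
    obtain ⟨z, hz, rfl⟩ := surj (n := n) (s := s 0) h1
    refine ⟨z, fun j hj => ?_, ?_⟩
    · cases j with
      | zero => exact hz
      | succ j =>
        have := hw j (by omega)
        rw [Function.iterate_succ_apply, show n + (j + 1) = n + 1 + j by ring]
        exact this
    · rw [Function.iterate_succ_apply, hw', show n + 1 + k = n + (k + 1) by ring]

theorem exists_point (n : ℕ) (s : ℕ → Bool) : ∃ p, ∀ k, p ∈ Cyl n s k := by
  have h1 : (⋂ k, CylC n s k).Nonempty := by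
    refine IsCompact.nonempty_iInter_of_sequence_nonempty_isCompact_isClosed _ (fun k => ?_)
      (fun k => ?_) ?_ (fun k => isClosed_CylC n s k)
    · intro z hz j hj
      exact hz j (by omega)
    · obtain ⟨z, hz, -⟩ := exists_zero k n s
      exact ⟨z, Cyl_subset_CylC n s k hz⟩
    · exact (isCompact_closedBall (ctr n (s 0)) (r n)).of_isClosed_subset (isClosed_CylC n s 0)
        (CylC_subset_closedBall n s 0)
  obtain ⟨p, hp⟩ := h1
  rw [mem_iInter] at hp
  refine ⟨p, fun k j hj => ?_⟩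
  rcases (mem_closedBall.mp (hp k j hj)).lt_or_eq with h | h
  · exact h
  · exfalso
    have h3 := est_lower (n + j) _ (sphere_subset_E (n + j) (s j) h)
    rw [← Function.iterate_succ_apply' f] at h3
    have h4 := (closedBall_norm (hp (j + 1) (j + 1) le_rfl)).2
    rw [show n + (j + 1) = n + j + 1 by ring] at h4
    linarith

/-- the point with itinerary `s` -/
noncomputable def pt (n : ℕ) (s : ℕ → Bool) : ℂ := (exists_point n s).choose

theorem pt_mem (n : ℕ) (s : ℕ → Bool) (k : ℕ) : pt n s ∈ Cyl n s k := (exists_point n s).choose_spec k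

theorem pt_unique {n : ℕ} {s : ℕ → Bool} {x : ℂ} (hx : ∀ k, x ∈ Cyl n s k) : x = pt n s := by
  have h1 : ∀ k : ℕ, ‖x - pt n s‖ ≤ a n * (1 / 4) ^ k := fun k =>
    diam_CylC (Cyl_subset_CylC _ _ _ (hx k)) (Cyl_subset_CylC _ _ _ (pt_mem n s k))
  have h2 : Tendsto (fun k : ℕ => a n * (1 / 4 : ℝ) ^ k) atTop (𝓝 (a n * 0)) :=
    (tendsto_pow_atTop_nhds_zero_of_lt_one (by norm_num) (by norm_num)).const_mul _
  rw [mul_zero] at h2
  have h3 : ‖x - pt n s‖ ≤ 0 := ge_of_tendsto' h2 h1
  exact sub_eq_zero.mp (norm_le_zero_iff.mp h3)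

theorem ctr_disjoint {n : ℕ} {s t : Bool} {z : ℂ} (h1 : z ∈ ball (ctr n s) (r n))
    (h2 : z ∈ ball (ctr n t) (r n)) : s = t := by
  by_contra hne
  have ha := a_pos n
  have hr := r_le n
  rw [mem_ball_iff_norm] at h1 h2
  have h3 : ‖ctr n s - ctr n t‖ = 2 * a n := by
    have h4 : ‖(2 * a n : ℂ)‖ = 2 * a n := by
      rw [norm_mul, Complex.norm_real, Real.norm_eq_abs, abs_of_pos ha]; norm_num
    cases s <;> cases t
    · exact absurd rfl hne
    · rw [← h4, ← norm_neg]
      congr 1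
      simp [ctr]
      ring
    · rw [← h4]
      congr 1
      simp [ctr]
      ring
    · exact absurd rfl hne
  have h4 : ‖ctr n s - ctr n t‖ ≤ ‖z - ctr n t‖ + ‖z - ctr n s‖ := by
    rw [show ctr n s - ctr n t = (z - ctr n t) - (z - ctr n s) by ring]
    exact norm_sub_le _ _
  linarith

theorem pt_injective (n : ℕ) : Function.Injective (pt n) := by
  intro s t hst
  funext j
  have h1 := pt_mem n s j j le_rfl
  have h2 := pt_mem n t j j le_rfl
  rw [← hst] at h2
  exact ctr_disjoint h1 h2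

theorem pt_notMem (n : ℕ) (s : ℕ → Bool) : pt n s ∉ U n := by
  intro hmem
  obtain ⟨V, hV, hpV, hn⟩ := escAt_U hmem
  obtain ⟨ε, hε, hεV⟩ := Metric.isOpen_iff.mp hV _ hpV
  have h0 := hn 0
  rw [eventually_atTop] at h0
  obtain ⟨J, hJ⟩ := h0
  have h2 : Tendsto (fun k : ℕ => a n * (1 / 4 : ℝ) ^ k) atTop (𝓝 (a n * 0)) :=
    (tendsto_pow_atTop_nhds_zero_of_lt_one (by norm_num) (by norm_num)).const_mul _
  rw [mul_zero] at h2
  obtain ⟨k, hk, hkJ⟩ := ((h2.eventually (gt_mem_nhds hε)).and (eventually_ge_atTop J)).exists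
  obtain ⟨z, hz, hz'⟩ := exists_zero k n s
  have h3 : z ∈ V := by
    apply hεV
    rw [mem_ball_iff_norm]
    exact lt_of_le_of_lt (diam_CylC (Cyl_subset_CylC _ _ _ hz)
      (Cyl_subset_CylC _ _ _ (pt_mem n s k))) hk
  have h4 := hJ (k + 1) (by omega) z h3
  rw [Function.iterate_succ_apply', hz', f_ctr, norm_zero] at h4
  exact lt_irrefl _ h4

theorem component_pt (n : ℕ) (s : ℕ → Bool) : connectedComponentIn (U n)ᶜ (pt n s) = {pt n s} :=
  component_eq_singleton (O := Cyl n s) (isOpen_Cyl n s) (pt_mem n s)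
    (fun k => (frontier_Cyl n s k).trans inter_subset_left) (fun _ hx => pt_unique hx) (pt_notMem n s)

theorem component_pt_sphere (n : ℕ) (s : ℕ → Bool) {ρ : ℝ} (hρ : 2 * a n ≤ ρ) :
    connectedComponentIn (((↑) : ℂ → OnePoint ℂ) '' (U n ∩ ball 0 ρ))ᶜ (pt n s : OnePoint ℂ) =
      {(pt n s : OnePoint ℂ)} := by
  have hb : ∀ k, Bornology.IsBounded (Cyl n s k) := fun k =>
    isBounded_closedBall.subset ((Cyl_subset_CylC n s k).trans (CylC_subset_closedBall n s k))
  refine component_eq_singleton (O := fun k => ((↑) : ℂ → OnePoint ℂ) '' Cyl n s k)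
    (fun k => OnePoint.isOpenEmbedding_coe.isOpenMap _ (isOpen_Cyl n s k))
    (fun k => mem_image_of_mem _ (pt_mem n s k)) (fun k => ?_) (fun x hx => ?_) ?_
  · refine (frontier_coe_image (isOpen_Cyl n s k) (hb k)).trans (image_mono ?_)
    intro z hz
    obtain ⟨h1, h2⟩ := frontier_Cyl n s k hz
    refine ⟨h1, ?_⟩
    rw [mem_ball_zero_iff]
    exact lt_of_lt_of_le (closedBall_norm h2).2 hρ
  · obtain ⟨y, -, rfl⟩ := hx 0
    have : ∀ k, y ∈ Cyl n s k := by
      intro k
      obtain ⟨y', hy', h⟩ := hx k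
      rw [OnePoint.coe_eq_coe] at h
      rwa [← h]
    rw [pt_unique this]
  · rintro ⟨y, hy, h⟩
    rw [OnePoint.coe_eq_coe] at h
    rw [h] at hy
    exact pt_notMem n s hy.1

end Pool.Agent.Work.MP_571b65_an
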