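import Mathlib
import Pool.Agent.Work.MP_571b65_an.Sing
import Pool.Agent.Work.MP_571b65_an.Harnack

/-!
# Wandering and inner connectivity
-/

open Filter Topology Metric Set

namespace Pool.Agent.Work.MP_571b65_an

theorem norm_B {n : ℕ} {z : ℂ} (hz : z ∈ B n) : 2048 ≤ ‖z‖ := by
  have := hz.1
  have := le_a n
  linarith

theorem log_growth {n : ℕ} {z : ℂ} (hz : z ∈ B n) :
    (n + 1 : ℕ) * Real.log ‖z‖ ≤ Real.log ‖f z‖ := by
  have h1 := growth' n z hz
  have h2 := norm_B hz
  rw [← Real.log_pow]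
  exact Real.log_le_log (by positivity) h1

theorem log_pos_B {n : ℕ} {z : ℂ} (hz : z ∈ B n) : 0 < Real.log ‖z‖ :=
  Real.log_pos (by linarith [norm_B hz])

theorem log_mono_iterate {n : ℕ} {z : ℂ} (hz : z ∈ B n) (i : ℕ) :
    Real.log ‖z‖ ≤ Real.log ‖f^[i] z‖ := by
  induction i with
  | zero => simp
  | succ i ih =>
    rw [Function.iterate_succ_apply']
    have h1 := log_growth (iterate_B hz i)
    have h2 := log_pos_B (iterate_B hz i)
    have h3 : (1 : ℝ) ≤ ((n + i + 1 : ℕ) : ℝ) := by exact_mod_cast Nat.succ_le_succ (Nat.zero_le _)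
    nlinarith

theorem U_injective : ∀ m n, m < n → U m ≠ U n := by
  intro m n hmn heq
  obtain ⟨d, rfl⟩ : ∃ d, n = m + (d + 1) := ⟨n - m - 1, by omega⟩
  set b : ℂ := 2 * a m with hb
  have hbB : b ∈ B m := two_a_mem_B m
  have h1 : f^[d + 1] b ∈ U m := by
    rw [heq]
    exact iterate_U m (d + 1) (mem_image_of_mem _ (two_a_mem_U m))
  have h2 : Rel f (f^[d + 1] b) b := by
    refine rel_of_mem differentiable_f (escAt_U h1) ?_
    rw [← connectedComponentIn_eq (show f^[d + 1] b ∈ connectedComponentIn (fatouSet f) (2 * a m) from h1)]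
    exact two_a_mem_U m
  obtain ⟨K, hK, h3⟩ := h2
  obtain ⟨N, hN⟩ := exists_nat_gt K
  obtain ⟨j, hj, hjN⟩ := (h3.and (eventually_ge_atTop N)).exists
  have hjB := iterate_B hbB j
  have h4 := log_growth hjB
  have h5 := log_pos_B hjB
  have h6 : Real.log ‖f (f^[j] b)‖ ≤ Real.log ‖f^[j] (f^[d + 1] b)‖ := by
    have h7 := log_mono_iterate (map_B hjB) d
    rw [← Function.iterate_add_apply, show j + (d + 1) = d + (j + 1) by ring,
      Function.iterate_add_apply, Function.iterate_succ_apply']
    exact h7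
  have h7 : ((m + j + 1 : ℕ) : ℝ) * Real.log ‖f^[j] b‖ ≤ K * Real.log ‖f^[j] b‖ :=
    h4.trans (h6.trans hj)
  have h8 := le_of_mul_le_mul_right h7 h5
  have h9 : (N : ℝ) ≤ ((m + j + 1 : ℕ) : ℝ) := by exact_mod_cast (by omega : N ≤ m + j + 1)
  linarith

theorem log_a_pos (n : ℕ) : 0 < Real.log (a n) := Real.log_pos (by linarith [le_a n])

/-- comparison between the orbit of `2 a_n` and the radii `a_{n+j}` -/
theorem log_ratio (n : ℕ) : ∃ c : ℝ, 0 < c ∧ ∀ j : ℕ,
    c * (2 * (n + j : ℕ) + 16) * Real.log (a (n + j)) ≤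
      Real.log (‖f^[j] (2 * a n)‖ / a (n + j)) := by
  have ha := a_pos n
  have hL := log_a_pos n
  have h2 : ‖(2 * a n : ℂ)‖ / a n = 2 := by
    rw [norm_mul, Complex.norm_real, Real.norm_eq_abs, abs_of_pos ha]
    field_simp
    norm_num
  refine ⟨Real.log 2 / ((2 * n + 16) * Real.log (a n)), by positivity, fun j => ?_⟩
  induction j with
  | zero =>
    simp only [add_zero, Function.iterate_zero, id_eq]
    rw [h2]
    refine le_of_eq ?_
    field_simp
  | succ j ih =>
    set c := Real.log 2 / ((2 * n + 16) * Real.log (a n)) with hc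
    have hc0 : 0 < c := by positivity
    have hB := iterate_B (two_a_mem_B n) j
    have ha1 := a_pos (n + j)
    have ha2 := a_pos (n + j + 1)
    have hg := growth (n + j) _ hB
    have hv : 0 < ‖f^[j] (2 * a n)‖ / a (n + j) := by
      have := norm_B hB
      positivity
    have hg' : (‖f^[j] (2 * a n)‖ / a (n + j)) ^ (2 * (n + j) + 18) ≤
        ‖f^[j + 1] (2 * a n)‖ / a (n + j + 1) := by
      rw [le_div_iff₀ ha2, Function.iterate_succ_apply']
      exact hg
    have h3 := Real.log_le_log (by positivity) hg'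
    rw [Real.log_pow] at h3
    have h4 : Real.log (a (n + j + 1)) ≤ (2 * (n + j) + 16 : ℕ) * Real.log (a (n + j)) := by
      rw [← Real.log_pow]
      exact Real.log_le_log ha2 (a_upper (n + j))
    have hLj := log_a_pos (n + j)
    rw [show n + (j + 1) = n + j + 1 by ring]
    push_cast at h3 h4 ih ⊢
    calc c * (2 * ((n : ℝ) + j + 1) + 16) * Real.log (a (n + j + 1))
        ≤ c * (2 * ((n : ℝ) + j + 1) + 16) * ((2 * (n + j) + 16) * Real.log (a (n + j))) := by
          gcongr
      _ = (2 * ((n : ℝ) + j) + 18) * (c * (2 * (n + j) + 16) * Real.log (a (n + j))) := by ring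
      _ ≤ (2 * ((n : ℝ) + j) + 18) * Real.log (‖f^[j] (2 * a n)‖ / a (n + j)) := by gcongr
      _ ≤ _ := h3

/-- every orbit in `U n` is eventually above the zeros -/
theorem eventually_large {n : ℕ} {z : ℂ} (hz : z ∈ U n) :
    ∀ᶠ j in atTop, 2 * a (n + j) ≤ ‖f^[j] z‖ := by
  obtain ⟨c, hc, hcj⟩ := log_ratio n
  have hR : Rel f (2 * a n) z :=
    rel_of_mem differentiable_f (escAt_U (two_a_mem_U n)) hz
  obtain ⟨K, hK, h3⟩ := hR
  obtain ⟨N, hN⟩ := exists_nat_gt (2 * K / c)
  filter_upwards [h3, eventually_ge_atTop N, (escAt_U hz).tendsto.eventually (eventually_gt_atTop 0)]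
    with j h3 hjN hpos
  have hB := iterate_B (two_a_mem_B n) j
  have ha := a_pos (n + j)
  have hL := log_a_pos (n + j)
  have h4 : Real.log (‖f^[j] (2 * a n)‖ / a (n + j)) ≤ Real.log ‖f^[j] (2 * a n)‖ := by
    refine Real.log_le_log ?_ (div_le_self (norm_nonneg _) (by linarith [le_a (n + j)]))
    have := norm_B hB
    positivity
  have h5 := hcj j
  have h6 : (N : ℝ) ≤ 2 * (n + j : ℕ) + 16 := by
    have : (N : ℝ) ≤ (j : ℝ) := by exact_mod_cast hjN
    push_cast
    have h7 : (0 : ℝ) ≤ n := Nat.cast_nonneg n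
    linarith
  have h7 : 2 * K ≤ c * (2 * (n + j : ℕ) + 16) := by
    rw [div_lt_iff₀ hc] at hN
    nlinarith
  have h8 : K * (2 * Real.log (a (n + j))) ≤ K * Real.log ‖f^[j] z‖ := by
    calc K * (2 * Real.log (a (n + j))) = 2 * K * Real.log (a (n + j)) := by ring
      _ ≤ c * (2 * (n + j : ℕ) + 16) * Real.log (a (n + j)) := by gcongr
      _ ≤ _ := h5.trans (h4.trans h3)
  have h9 := le_of_mul_le_mul_left h8 hK
  have h10 : Real.log (2 * a (n + j)) ≤ Real.log ‖f^[j] z‖ := by
    refine le_trans ?_ h9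
    rw [← Real.log_rpow ha]
    refine Real.log_le_log (by positivity) ?_
    rw [Real.rpow_ofNat]
    nlinarith [le_a (n + j)]
  exact (Real.log_le_log_iff (by positivity) hpos).mp h10

theorem uncountable_itineraries : ¬ Countable (ℕ → Bool) := by
  intro h
  obtain ⟨g, hg⟩ := exists_surjective_nat (ℕ → Bool)
  obtain ⟨k, hk⟩ := hg (fun n => !(g n n))
  have := congrFun hk k
  simp at this

theorem isFatouComponent_U (n : ℕ) : IsFatouComponent f (U n) := ⟨_, two_a_mem_fatou n, rfl⟩

theorem main (n : ℕ) : IsMCWanderingDomain f (U n) (fun j => U (n + j)) ∧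
    HasInfiniteInnerConnectivity f (U n) (fun j => U (n + j)) ∧
    ¬ (singletonComponents (U n)).Countable := by
  refine ⟨⟨isFatouComponent_U n, ?_, fun j => isFatouComponent_U _, fun j => iterate_U n j, ?_⟩,
    ?_, ?_⟩
  · refine ⟨pt n fun _ => true, pt_notMem n _, ?_⟩
    rw [component_pt]
    exact Bornology.isBounded_singleton
  · intro i j hij
    rcases lt_or_gt_of_ne hij with h | h
    · exact U_injective _ _ (by omega)
    · exact (U_injective _ _ (by omega)).symm
  · intro z hz
    have h1 := eventually_large hz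
    rw [eventually_atTop] at h1
    obtain ⟨N, hN⟩ := h1
    refine ⟨N, fun j hj => ?_⟩
    have h2 := hN j hj
    have hinf : Infinite (ℕ → Bool) := by
      by_contra hcon
      rw [not_infinite_iff_finite] at hcon
      exact uncountable_itineraries inferInstance
    have h3 : (range fun s : ℕ → Bool => ({(pt (n + j) s : OnePoint ℂ)} : Set (OnePoint ℂ))).Infinite := by
      refine infinite_range_of_injective fun s t hst => ?_
      have h4 : (pt (n + j) s : OnePoint ℂ) = pt (n + j) t := singleton_injective hst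
      rw [OnePoint.coe_eq_coe] at h4
      exact pt_injective (n + j) h4
    refine h3.mono ?_
    rintro _ ⟨s, rfl⟩
    refine ⟨(pt (n + j) s : OnePoint ℂ), ?_, (component_pt_sphere (n + j) s h2).symm⟩
    rintro ⟨y, hy, h⟩
    rw [OnePoint.coe_eq_coe] at h
    rw [h] at hy
    exact pt_notMem _ s hy.1
  · intro hc
    apply uncountable_itineraries
    have h1 : (range (pt n)).Countable := hc.mono (by
      rintro _ ⟨s, rfl⟩
      exact ⟨pt_notMem n s, component_pt n s⟩)
    rw [← Set.countable_univ_iff]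
    have h2 := h1.preimage (pt_injective n)
    rwa [Set.preimage_range] at h2

end Pool.Agent.Work.MP_571b65_an
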